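import Pool.Agent.AEK.Main
import Pool.Agent.AELT.Main

/-!
# The rooted theorem with ratio one and linear slack
-/

namespace AEK

open Finset AE15 AED AELT AEX
open scoped Classical

theorem dcl_le_size (c : Fd) : dcl c ≤ c.size := by
  induction c with
  | nil => exact le_rfl
  | node d c s ihc ihs =>
    simp only [dcl, Fd.size]
    split_ifs <;> omega

theorem blk_le_size (c : Fd) : AEB.blk c ≤ c.size := by
  induction c with
  | nil => exact le_rfl
  | node d c s ihc ihs =>
    simp only [AEB.blk, Fd.size]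
    split_ifs <;> omega

theorem wide_mono {V : Type*} {R : V → V → Prop} {κ a a' : ℝ} (ha : a' ≤ a) {X : Finset V} {z : V}
    (h : Wide R κ a X z) : Wide R κ a' X z := fun Q hQ h1 h2 => ha.trans (h Q hQ h1 h2)

/-- **The rooted theorem**: every oriented tree of bounded degree with at most `(1 - ε) |X|` vertices is contained in `X`
with its root satisfying `N`, if at least `ε |X|` vertices satisfy `N` and have large enough closures on both sides -/
theorem lt1 (b : ℕ) (hb : 1 ≤ b) {κ ε : ℝ} (hκ : 0 < κ) (hε : 0 < ε) : ∃ n₀ : ℕ,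
    ∀ {V : Type} {R : V → V → Prop}, AE32.Tour R → ∀ (X : Finset V) (N : V → Prop), n₀ ≤ X.card →
      ∀ c : Fd, c.len ≤ b → c.Deg b → (c.size + 1 : ℝ) ≤ (1 - ε) * X.card →
        ε * X.card ≤ ((X.filter (fun z => N z ∧ Wide R κ ((dcl c + 1) + ε * X.card) X z ∧
          Wide (fun a b => R b a) κ ((AEB.blk c + 1) + ε * X.card) X z)).card : ℝ) → In R c N X := by
  obtain ⟨ε', hε'⟩ : ∃ ε' : ℝ, ε' = min ε 1 := ⟨_, rfl⟩
  have e0 : 0 < ε' := by rw [hε']; exact lt_min hε one_pos
  have e1 : ε' ≤ 1 := by rw [hε']; exact min_le_right _ _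
  have e2 : ε' ≤ ε := by rw [hε']; exact min_le_left _ _
  obtain ⟨C, hC, hU⟩ := un_one b hb (show (0 : ℝ) < ε' / 4 by positivity)
  obtain ⟨n₀, h₀⟩ := lt b hb (ρ := 1 + ε' / 4) (ε := ε' / 2) (by linarith) hC hκ (by positivity)
  refine ⟨n₀, ?_⟩
  intro V R hT X N hn c hl hd hc hN
  have hX0 : (0 : ℝ) ≤ X.card := Nat.cast_nonneg _
  have hs0 : (0 : ℝ) ≤ (c.size : ℝ) := Nat.cast_nonneg _
  have hεX : ε' * (X.card : ℝ) ≤ ε * X.card := mul_le_mul_of_nonneg_right e2 hX0
  have hcX : (c.size : ℝ) + 1 ≤ X.card := by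
    have : 0 ≤ ε * (X.card : ℝ) := by positivity
    linarith
  have h1 : ε' / 4 * ((c.size : ℝ) + 1) ≤ ε' / 4 * X.card := mul_le_mul_of_nonneg_left hcX (by positivity)
  refine h₀ hT (hU hT) X N hn c hl hd ?_ ?_
  · have : (1 - ε / 1) * (X.card : ℝ) ≤ (1 - ε') * X.card := mul_le_mul_of_nonneg_right (by linarith) hX0
    nlinarith
  · refine le_trans ?_ (hN.trans ?_)
    · have : ε' / 2 * (X.card : ℝ) ≤ ε' * X.card := mul_le_mul_of_nonneg_right (by linarith) hX0
      linarith
    · have hsub : (X.filter (fun z => N z ∧ Wide R κ ((dcl c + 1) + ε * X.card) X z ∧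
          Wide (fun a b => R b a) κ ((AEB.blk c + 1) + ε * X.card) X z)) ⊆
          X.filter (fun z => N z ∧ Wide R κ ((1 + ε' / 4) * (dcl c + 1) + ε' / 2 * X.card) X z ∧
          Wide (fun a b => R b a) κ ((1 + ε' / 4) * (AEB.blk c + 1) + ε' / 2 * X.card) X z) := by
        intro z hz
        rw [mem_filter] at hz ⊢
        refine ⟨hz.1, hz.2.1, wide_mono ?_ hz.2.2.1, wide_mono ?_ hz.2.2.2⟩
        · have h2 : ((dcl c : ℕ) : ℝ) ≤ c.size := by exact_mod_cast dcl_le_size c
          have h3 : ε' / 4 * ((dcl c : ℝ) + 1) ≤ ε' / 4 * (c.size + 1) := mul_le_mul_of_nonneg_left (by linarith) (by positivity)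
          nlinarith
        · have h2 : ((AEB.blk c : ℕ) : ℝ) ≤ c.size := by exact_mod_cast blk_le_size c
          have h3 : ε' / 4 * ((AEB.blk c : ℝ) + 1) ≤ ε' / 4 * (c.size + 1) := mul_le_mul_of_nonneg_left (by linarith) (by positivity)
          nlinarith
      exact_mod_cast card_le_card hsub

end AEK
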