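import Pool.Agent.AEK.Stmt
import Pool.Agent.LTT.Part
import Pool.Agent.AELT.Core

/-!
# Every tournament is almost transitive or has a large expanding block
-/

namespace AEK

open Finset AE15 AED AELT LTT
open scoped Classical

variable {V : Type*} {R : V → V → Prop}

theorem exists_index (g : ℕ → ℕ) (D a : ℝ) (h0 : (g 0 : ℝ) ≤ a + D) (h1 : ∀ i, (g (i + 1) : ℝ) ≤ g i + D)
    (h2 : ∃ i, a ≤ (g i : ℝ)) : ∃ i, a ≤ (g i : ℝ) ∧ (g i : ℝ) ≤ a + D := by
  classical
  refine ⟨Nat.find h2, Nat.find_spec h2, ?_⟩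
  rcases hn : Nat.find h2 with _ | i
  · exact h0
  · have h3 : ¬ a ≤ (g i : ℝ) := Nat.find_min h2 (by omega)
    have := h1 i
    push Not at h3
    linarith

/-- the generic vertices -/
noncomputable def gnr (R : V → V → Prop) (X : Finset V) (β : V → ℕ) (t : ℝ) : Finset V := X.filter (fun v => Gen R X β t v)

theorem mem_gnr {X : Finset V} {β : V → ℕ} {t : ℝ} {v : V} : v ∈ gnr R X β t ↔ v ∈ X ∧ Gen R X β t v := by simp [gnr]

theorem gnr_out (hR : AE32.Tour R) {X : Finset V} {β : V → ℕ} {t : ℝ} {x : V} (hx : x ∈ gnr R X β t) {S : Finset V}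
    (hS : S ⊆ X) (h : ∀ v ∈ S, β x < β v) : ((S.filter (fun v => ¬ R x v)).card : ℝ) ≤ t := by
  refine le_trans ?_ (mem_gnr.1 hx).2.2
  exact_mod_cast card_le_card (fun v hv => by
    rw [mem_filter] at hv
    simp only [nI, dwnI, mem_filter]
    refine ⟨⟨hS hv.1, h v hv.1⟩, ?_⟩
    have hne : v ≠ x := by
      rintro rfl
      exact lt_irrefl _ (h v hv.1)
    have := hR.tot v x hne
    by_contra hc
    exact hv.2 (by tauto))

theorem gnr_in (hR : AE32.Tour R) {X : Finset V} {β : V → ℕ} {t : ℝ} {x : V} (hx : x ∈ gnr R X β t) {S : Finset V}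
    (hS : S ⊆ X) (h : ∀ v ∈ S, β v < β x) : ((S.filter (fun v => ¬ R v x)).card : ℝ) ≤ t := by
  refine le_trans ?_ (mem_gnr.1 hx).2.1
  exact_mod_cast card_le_card (fun v hv => by
    rw [mem_filter] at hv
    simp only [nO, uppI, mem_filter]
    refine ⟨⟨hS hv.1, h v hv.1⟩, ?_⟩
    have hne : x ≠ v := by
      rintro rfl
      exact lt_irrefl _ (h x hv.1)
    have := hR.tot x v hne
    by_contra hc
    exact hv.2 (by tauto))

theorem div_of_thin (hR : AE32.Tour R) {X : Finset V} {β : V → ℕ} {t η η₀ : ℝ} (h0 : 0 ≤ η₀) (hgen : ((X.filter (fun v => ¬ Gen R X β (t * X.card) v)).card : ℝ) ≤ t * X.card)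
    (hη : 2 * η₀ + t ≤ η) (hthin : ∀ v ∈ X, ((blkI X β (β v)).card : ℝ) ≤ η₀ * X.card) : Div R X η := by
  intro a₀ a₁ a₂ ha₀ ha₁ ha₂ hsum
  set n : ℝ := (X.card : ℝ) with hn
  have hn0 : 0 ≤ n := by positivity
  set Γ : Finset V := gnr R X β (t * n) with hΓ
  have hΓX : Γ ⊆ X := filter_subset _ _
  have hΓc : n - t * n ≤ Γ.card := by
    have h1 : (Γ.card : ℝ) + ((X.filter (fun v => ¬ Gen R X β (t * X.card) v)).card : ℝ) = n := by
      rw [hΓ, gnr, hn]
      exact_mod_cast card_filter_add_card_filter_not _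
    linarith
  have hblk : ∀ i, ((blkI X β i).card : ℝ) ≤ η₀ * n := by
    intro i
    rcases (blkI X β i).eq_empty_or_nonempty with h | ⟨v, hv⟩
    · rw [h, card_empty, Nat.cast_zero]
      positivity
    · obtain ⟨h1, h2⟩ := mem_blkI.1 hv
      rw [← h2]
      exact hthin v h1
  have hD : 0 ≤ η₀ * n := by positivity
  have htn : t * n + 2 * (η₀ * n) ≤ η * n := by
    have := mul_le_mul_of_nonneg_right hη hn0
    linarith
  -- the vertices with index in `[i, i + j)`
  have hstep : ∀ i j : ℕ, ((Γ.filter (fun v => i ≤ β v ∧ β v < i + (j + 1))).card : ℝ) ≤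
      (Γ.filter (fun v => i ≤ β v ∧ β v < i + j)).card + η₀ * n := by
    intro i j
    have h1 : Γ.filter (fun v => i ≤ β v ∧ β v < i + (j + 1)) ⊆ Γ.filter (fun v => i ≤ β v ∧ β v < i + j) ∪ blkI X β (i + j) := by
      intro v hv
      rw [mem_filter] at hv
      rw [mem_union, mem_filter, mem_blkI]
      by_cases h : β v < i + j
      · exact Or.inl ⟨hv.1, hv.2.1, h⟩
      · exact Or.inr ⟨hΓX hv.1, by omega⟩
    have h2 : ((Γ.filter (fun v => i ≤ β v ∧ β v < i + (j + 1))).card : ℝ) ≤
        (Γ.filter (fun v => i ≤ β v ∧ β v < i + j)).card + (blkI X β (i + j)).card := by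
      exact_mod_cast (card_le_card h1).trans (card_union_le _ _)
    linarith [hblk (i + j)]
  have hall : ∀ i : ℕ, ∃ j, (Γ.filter (fun v => i ≤ β v ∧ β v < i + j)).card = (Γ.filter (fun v => i ≤ β v)).card := by
    intro i
    refine ⟨Γ.sup β + 1, ?_⟩
    congr 1
    ext v
    simp only [mem_filter]
    constructor
    · rintro ⟨h1, h2, -⟩
      exact ⟨h1, h2⟩
    · rintro ⟨h1, h2⟩
      have : β v ≤ Γ.sup β := le_sup h1
      exact ⟨h1, h2, by omega⟩
  have hz : ∀ i : ℕ, (Γ.filter (fun v => i ≤ β v ∧ β v < i + 0)).card = 0 := by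
    intro i
    rw [card_eq_zero, filter_eq_empty_iff]
    intro v _
    omega
  obtain ⟨i, hi1, hi2⟩ := exists_index (fun j => (Γ.filter (fun v => 0 ≤ β v ∧ β v < 0 + j)).card) (η₀ * n) a₀
    (by rw [hz]; push_cast; linarith) (fun j => hstep 0 j) (by
      obtain ⟨j, hj⟩ := hall 0
      refine ⟨j, ?_⟩
      show a₀ ≤ ((Γ.filter (fun v => 0 ≤ β v ∧ β v < 0 + j)).card : ℝ)
      rw [hj, filter_true_of_mem (fun v _ => Nat.zero_le _)]
      linarith)
  have hcut : (Γ.filter (fun v => 0 ≤ β v ∧ β v < 0 + i)) = Γ.filter (fun v => β v < i) := by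
    apply filter_congr
    intro v _
    simp
  simp only [hcut] at hi1 hi2
  have hsp1 : ((Γ.filter (fun v => β v < i)).card : ℝ) + (Γ.filter (fun v => i ≤ β v)).card = Γ.card := by
    have : (Γ.filter (fun v => β v < i)).card + (Γ.filter (fun v => ¬ β v < i)).card = Γ.card :=
      card_filter_add_card_filter_not _
    simp only [not_lt] at this
    exact_mod_cast this
  obtain ⟨j, hj1, hj2⟩ := exists_index (fun j => (Γ.filter (fun v => i ≤ β v ∧ β v < i + j)).card) (η₀ * n) a₁
    (by rw [hz]; push_cast; linarith) (fun j => hstep i j) (by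
      obtain ⟨j, hj⟩ := hall i
      refine ⟨j, ?_⟩
      simp only [hj]
      linarith)
  have hsp2 : ((Γ.filter (fun v => i ≤ β v ∧ β v < i + j)).card : ℝ) + (Γ.filter (fun v => i + j ≤ β v)).card =
      (Γ.filter (fun v => i ≤ β v)).card := by
    have h1 := card_filter_add_card_filter_not (s := Γ.filter (fun v => i ≤ β v)) (p := fun v => β v < i + j)
    rw [filter_filter, filter_filter] at h1
    have h2 : (Γ.filter (fun v => i ≤ β v ∧ ¬ β v < i + j)) = Γ.filter (fun v => i + j ≤ β v) := by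
      apply filter_congr
      intro v _
      omega
    rw [h2] at h1
    exact_mod_cast h1
  refine ⟨fun l => if l = 0 then Γ.filter (fun v => β v < i) else if l = 1 then
    Γ.filter (fun v => i ≤ β v ∧ β v < i + j) else if l = 2 then Γ.filter (fun v => i + j ≤ β v) else ∅, ?_, ?_, ?_, ?_⟩
  · have hG : ∀ l, ∀ v, v ∈ (if l = 0 then Γ.filter (fun v => β v < i) else if l = 1 then
        Γ.filter (fun v => i ≤ β v ∧ β v < i + j) else if l = 2 then Γ.filter (fun v => i + j ≤ β v) else (∅ : Finset V)) →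
        v ∈ Γ ∧ ((l = 0 ∧ β v < i) ∨ (l = 1 ∧ i ≤ β v ∧ β v < i + j) ∨ (l = 2 ∧ i + j ≤ β v)) := by
      intro l v hv
      split_ifs at hv with h1 h2 h3
      · rw [mem_filter] at hv; exact ⟨hv.1, Or.inl ⟨h1, hv.2⟩⟩
      · rw [mem_filter] at hv; exact ⟨hv.1, Or.inr (Or.inl ⟨h2, hv.2⟩)⟩
      · rw [mem_filter] at hv; exact ⟨hv.1, Or.inr (Or.inr ⟨h3, hv.2⟩)⟩
      · simp at hv
    refine ⟨?_, ?_, ?_, ?_⟩
    · intro l v hv
      exact hΓX (hG l v hv).1
    · intro l l' hl
      rw [disjoint_left]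
      intro v hv hv'
      have h1 := (hG l v hv).2
      have h2 := (hG l' v hv').2
      omega
    · intro l hl
      have h1 : l ≠ 0 := by omega
      have h2 : l ≠ 1 := by omega
      have h3 : l ≠ 2 := by omega
      simp [h1, h2, h3]
    · intro l l' hl
      have htη : t * n ≤ η * n := by linarith
      constructor
      · intro x hx
        refine (gnr_out hR (hG l x hx).1 (fun v hv => hΓX (hG l' v hv).1) ?_).trans htη
        intro v hv
        have h1 := (hG l x hx).2
        have h2 := (hG l' v hv).2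
        omega
      · intro x hx
        refine (gnr_in hR (hG l' x hx).1 (fun v hv => hΓX (hG l v hv).1) ?_).trans htη
        intro v hv
        have h1 := (hG l' x hx).2
        have h2 := (hG l v hv).2
        omega
  · simpa using hi1
  · simpa using hj1
  · simp only [show (2 : ℕ) ≠ 0 by norm_num, show (2 : ℕ) ≠ 1 by norm_num, if_false, if_true]
    linarith

theorem thk_of_thick (hR : AE32.Tour R) {X : Finset V} {β : V → ℕ} {ε η₀ k t : ℝ} (hη₀ : 0 < η₀) (hη₀1 : η₀ ≤ 1)
    (hε : 0 < ε) (hε1 : ε ≤ 1) (hk : 0 < k) (ht0 : 0 ≤ t) (ht1 : t ≤ ε * η₀ / 16) (ht2 : t ≤ k / 8)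
    (hgen : ((X.filter (fun v => ¬ Gen R X β (t * X.card) v)).card : ℝ) ≤ t * X.card) {i : ℕ}
    (hb : η₀ * X.card ≤ (blkI X β i).card) (hu : Uns R X β η₀ (ε / 16) k i) {θ : ℝ} (hθ0 : 0 ≤ θ) (hθ : θ ≤ k / 8) :
    ∃ G : ℕ → Finset V, Thk R X (η₀ / 2) ε θ G := by
  set n : ℝ := (X.card : ℝ) with hn
  have hn0 : 0 ≤ n := by positivity
  set B := blkI X β i with hB
  have hBX : B ⊆ X := filter_subset _ _
  have hBn : (B.card : ℝ) ≤ n := by rw [hn]; exact_mod_cast card_le_card hBX
  obtain ⟨Y, hY1, hY2, hY3⟩ := exists_core (R := R) (η := ε / 16) (k := k) (θ := k / 4) (n := n) (by positivity)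
    (by linarith) (by positivity) (by linarith) hBn (by
      intro A hA h1 h2
      have h3 : ((B \ A).card : ℝ) = B.card - A.card := by
        rw [card_sdiff_of_subset hA]
        push_cast [card_le_card hA]
        ring
      have h4 := hu hb A hA h1 (by rw [← hB]; linarith)
      have h5 : (ar R A (B \ A) : ℝ) = arcs R A (B \ A) := by
        simp only [ar, arcs]
        push_cast
        rfl
      rw [h5]
      exact h4)
  set NG := X.filter (fun v => ¬ Gen R X β (t * n) v) with hNG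
  have hNGt : (NG.card : ℝ) ≤ t * n := hgen
  have hEx : Ex R (k / 4 * n / 2) (Y \ NG) := by
    apply hY3.sdiff
    have : t * n ≤ k / 8 * n := mul_le_mul_of_nonneg_right ht2 hn0
    linarith
  set Γ : Finset V := gnr R X β (t * n) with hΓ
  have hΓX : Γ ⊆ X := filter_subset _ _
  have hYΓ : ∀ v ∈ Y \ NG, v ∈ Γ ∧ β v = i := by
    intro v hv
    rw [mem_sdiff] at hv
    obtain ⟨h1, h2⟩ := mem_blkI.1 (hY1 hv.1)
    refine ⟨mem_gnr.2 ⟨h1, ?_⟩, h2⟩
    by_contra h
    exact hv.2 (mem_filter.2 ⟨h1, h⟩)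
  have hYc : ((Y \ NG).card : ℝ) + t * n + ε / 8 * B.card ≥ B.card := by
    have h1 : B.card ≤ (Y \ NG).card + NG.card + (B \ Y).card := by
      have h2 : B ⊆ (Y \ NG) ∪ NG ∪ (B \ Y) := by
        intro v hv
        simp only [mem_union, mem_sdiff]
        tauto
      exact (card_le_card h2).trans ((card_union_le _ _).trans (Nat.add_le_add_right (card_union_le _ _) _))
    have h3 : (B.card : ℝ) ≤ (Y \ NG).card + NG.card + (B \ Y).card := by exact_mod_cast h1
    have h4 : 2 * (ε / 16) * (B.card : ℝ) = ε / 8 * B.card := by ring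
    linarith
  have hb' : η₀ * n ≤ B.card := hb
  have hεη : t * n ≤ ε * (η₀ * n) / 16 := by
    have := mul_le_mul_of_nonneg_right ht1 hn0
    have e : ε * η₀ / 16 * n = ε * (η₀ * n) / 16 := by ring
    linarith
  have hηn : 0 ≤ η₀ * n := by positivity
  have hεB : ε * (η₀ * n) ≤ ε * B.card := mul_le_mul_of_nonneg_left hb' hε.le
  have hεB1 : ε * B.card ≤ B.card := by
    have : (0 : ℝ) ≤ B.card := by positivity
    nlinarith
  have hYB : B.card / 2 ≤ ((Y \ NG).card : ℝ) := by linarith
  have hε' : ε * (B.card / 2) ≤ ε * ((Y \ NG).card : ℝ) := mul_le_mul_of_nonneg_left hYB hε.le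
  refine ⟨fun l => if l = 0 then Γ.filter (fun v => β v < i) else if l = 1 then Y \ NG else
    if l = 2 then Γ.filter (fun v => i < β v) else ∅, ?_, ?_, ?_, ?_⟩
  · have hG : ∀ l, ∀ v, v ∈ (if l = 0 then Γ.filter (fun v => β v < i) else if l = 1 then Y \ NG else
        if l = 2 then Γ.filter (fun v => i < β v) else (∅ : Finset V)) →
        v ∈ Γ ∧ ((l = 0 ∧ β v < i) ∨ (l = 1 ∧ β v = i) ∨ (l = 2 ∧ i < β v)) := by
      intro l v hv
      split_ifs at hv with h1 h2 h3
      · rw [mem_filter] at hv; exact ⟨hv.1, Or.inl ⟨h1, hv.2⟩⟩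
      · exact ⟨(hYΓ v hv).1, Or.inr (Or.inl ⟨h2, (hYΓ v hv).2⟩)⟩
      · rw [mem_filter] at hv; exact ⟨hv.1, Or.inr (Or.inr ⟨h3, hv.2⟩)⟩
      · simp at hv
    refine ⟨?_, ?_, ?_, ?_⟩
    · intro l v hv
      exact hΓX (hG l v hv).1
    · intro l l' hl
      rw [disjoint_left]
      intro v hv hv'
      have h1 := (hG l v hv).2
      have h2 := (hG l' v hv').2
      omega
    · intro l hl
      have h1 : l ≠ 0 := by omega
      have h2 : l ≠ 1 := by omega
      have h3 : l ≠ 2 := by omega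
      simp [h1, h2, h3]
    · intro l l' hl
      have htη : t * n ≤ ε * ((Y \ NG).card : ℝ) := by
        have : 0 ≤ ε * (B.card : ℝ) := by positivity
        linarith
      have h10 : (1 : ℕ) ≠ 0 := one_ne_zero
      simp only [h10, if_false, if_true]
      constructor
      · intro x hx
        refine (gnr_out hR (hG l x hx).1 (fun v hv => hΓX (hG l' v hv).1) ?_).trans htη
        intro v hv
        have h1 := (hG l x hx).2
        have h2 := (hG l' v hv).2
        omega
      · intro x hx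
        refine (gnr_in hR (hG l' x hx).1 (fun v hv => hΓX (hG l v hv).1) ?_).trans htη
        intro v hv
        have h1 := (hG l' x hx).2
        have h2 := (hG l v hv).2
        omega
  · have h10 : (1 : ℕ) ≠ 0 := one_ne_zero
    simp only [h10, if_false, if_true]
    rw [← hn]
    linarith
  · have h10 : (1 : ℕ) ≠ 0 := one_ne_zero
    simp only [h10, if_false, if_true]
    apply hEx.mono
    have h1 : ((Y \ NG).card : ℝ) ≤ n := by
      rw [hn]
      exact_mod_cast card_le_card (sdiff_subset.trans (hY1.trans hBX))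
    have h2 : θ * ((Y \ NG).card : ℝ) ≤ k / 8 * n := mul_le_mul hθ h1 (by positivity) (by positivity)
    linarith
  · have h10 : (1 : ℕ) ≠ 0 := one_ne_zero
    have h20 : (2 : ℕ) ≠ 0 := two_ne_zero
    have h21 : (2 : ℕ) ≠ 1 := by norm_num
    simp only [h10, h20, h21, if_false, if_true]
    have h1 : X.card ≤ (Γ.filter (fun v => β v < i)).card + B.card + (Γ.filter (fun v => i < β v)).card + NG.card := by
      have h2 : X ⊆ Γ.filter (fun v => β v < i) ∪ B ∪ Γ.filter (fun v => i < β v) ∪ NG := by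
        intro v hv
        simp only [mem_union, mem_filter, hΓ, mem_gnr, hB, mem_blkI, hNG]
        by_cases h3 : Gen R X β (t * n) v
        · rcases lt_trichotomy (β v) i with h4 | h4 | h4
          · tauto
          · tauto
          · tauto
        · tauto
      refine (card_le_card h2).trans ((card_union_le _ _).trans (Nat.add_le_add_right ?_ _))
      exact (card_union_le _ _).trans (Nat.add_le_add_right (card_union_le _ _) _)
    have h3 : (X.card : ℝ) ≤ (Γ.filter (fun v => β v < i)).card + B.card + (Γ.filter (fun v => i < β v)).card + NG.card := by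
      exact_mod_cast h1
    have h4 : 0 ≤ ε * (B.card : ℝ) := by positivity
    linarith

/-- **every tournament is almost transitive or has a large expanding block** -/
theorem geo {η ε : ℝ} (hη : 0 < η) (hη1 : η ≤ 1) (hε : 0 < ε) (hε1 : ε ≤ 1) : ∃ (δ θ : ℝ) (n₀ : ℕ), 0 < δ ∧ 0 < θ ∧ θ ≤ 1 ∧
    ∀ {V : Type} {R : V → V → Prop}, AE32.Tour R → ∀ X : Finset V, n₀ ≤ X.card →
      Div R X η ∨ ∃ G : ℕ → Finset V, Thk R X δ ε θ G := by
  obtain ⟨k₀, hk₀, hP⟩ := partition (η₀ := η / 8) (η₁ := ε / 16) (by positivity) (by linarith) (by positivity)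
    (by linarith) (fun k => min (ε * (η / 8) / 16) (k / 8)) (fun k hk => lt_min (by positivity) (by positivity)) one_pos
  refine ⟨η / 8 / 2, min 1 (k₀ / 8), 0, by positivity, lt_min one_pos (by positivity), min_le_left _ _, ?_⟩
  intro V R hR X _
  obtain ⟨k, β, h1, h2, -, h4, h5⟩ := hP (R := R) X
  have hk : 0 < k := hk₀.trans_le h1
  by_cases h : ∃ v ∈ X, η / 8 * X.card ≤ (blkI X β (β v)).card
  · obtain ⟨v, hv, hv1⟩ := h
    right
    refine thk_of_thick hR (by positivity) (by linarith) hε hε1 hk (le_min (by positivity) (by positivity))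
      (min_le_left _ _) (min_le_right _ _) h5 hv1 (h4 v hv) (le_min zero_le_one (by positivity)) ?_
    refine (min_le_right _ _).trans ?_
    linarith
  · push Not at h
    left
    refine div_of_thin hR (η₀ := η / 8) (by positivity) h5 ?_ (fun v hv => (h v hv).le)
    have h6 : min (ε * (η / 8) / 16) (k / 8) ≤ ε * (η / 8) / 16 := min_le_left _ _
    have h7 : ε * (η / 8) ≤ η / 8 := by
      have : 0 ≤ η / 8 := by positivity
      nlinarith
    linarith

end AEK
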