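import Pool.Agent.AEK.Defs

/-!
# From the component of the root to the whole tree, several labels, with a bound for the components
-/

namespace AEK

open Finset AE15 AED AELT
open scoped Classical

theorem Fn.size_top (e : ℕ) (F : Fn) : (F.top e).size + F.off e e = F.num e := by
  induction F with
  | nil => rfl
  | node d e' c s ihc ihs =>
    by_cases h : e' = e
    · simp only [Fn.top, Fn.off, Fn.num, if_pos h, Fd.size]
      omega
    · simp only [Fn.top, Fn.off, Fn.num, if_neg h]
      omega

theorem Fn.off_ne {e j : ℕ} (h : j ≠ e) (F : Fn) : F.off e j = F.num j := by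
  induction F with
  | nil => rfl
  | node d e' c s ihc ihs =>
    by_cases h' : e' = e
    · have : e' ≠ j := by rw [h']; exact fun h2 => h h2.symm
      simp only [Fn.off, Fn.num, if_pos h', if_neg this, ihc, ihs]
      omega
    · simp only [Fn.off, Fn.num, if_neg h', ihs]

theorem Fn.len_top (e : ℕ) (F : Fn) : (F.top e).len ≤ F.un.len := by
  induction F with
  | nil => exact le_rfl
  | node d e' c s ihc ihs =>
    by_cases h : e' = e
    · simp only [Fn.top, if_pos h, Fn.un, Fd.len]
      omega
    · simp only [Fn.top, if_neg h, Fn.un, Fd.len]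
      omega

theorem Fn.deg_top {b : ℕ} (e : ℕ) (F : Fn) (h : F.un.Deg b) : (F.top e).Deg b := by
  induction F with
  | nil => trivial
  | node d e' c s ihc ihs =>
    obtain ⟨h1, h2, h3⟩ := h
    by_cases h : e' = e
    · simp only [Fn.top, if_pos h]
      exact ⟨(Fn.len_top e c).trans h1, ihc h2, ihs h3⟩
    · simp only [Fn.top, if_neg h]
      exact ihs h3

variable {V : Type*} {R : V → V → Prop}

theorem extm {b : ℕ} {ρ C ν : ℝ} (hρ : 1 ≤ ρ) (hU : Un R b ρ C) {G : ℕ → Finset V} {X : Finset V} (hX : ∀ j, G j ⊆ X)
    (hG : ∀ i j, i ≠ j → Disjoint (G i) (G j)) (hT : Typ R ν G) (M : ℕ → ℕ) (F : Fn) : ∀ (e : ℕ), F.Ok e → F.un.Deg b →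
    (∀ j, F.Mx j (M j) e) →
    ∀ x ∈ G e, ∀ P ⊆ G e, x ∉ P → Emb R (F.top e) x P → ∀ W : Finset V, insert x P ⊆ W →
      (∀ j, F.off e j ≠ 0 → (F.off e j : ℝ) + (ρ - 1) * M j + C + ν + (W ∩ G j).card ≤ ((G j).card : ℝ)) →
      ∃ Q ⊆ X, Disjoint Q W ∧ Emb R F.un x (P ∪ Q) ∧ ∀ j, (Q ∩ G j).card ≤ F.off e j := by
  induction F with
  | nil =>
    intro e _ _ _ x _ P _ _ hE W _ _
    have hP : P = ∅ := hE
    subst hP
    exact ⟨∅, by simp, by simp, (by simp : (∅ : Finset V) ∪ ∅ = ∅), by simp⟩
  | node d e' c s ihc ihs =>
    intro e hV hD hM x hx P hP hxP hE W hW hc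
    obtain ⟨hV1, hV2, hV3⟩ := hV
    obtain ⟨hD1, hD2, hD3⟩ := hD
    by_cases h : e' = e
    · subst h
      simp only [Fn.top, if_true] at hE
      obtain ⟨x1, A, B, h1, h2, h3, h4, h5, h6, h7⟩ := hE
      subst h5
      have hx1 : x1 ∈ G e' := hP (by simp)
      have hA : A ⊆ G e' := fun v hv => hP (by simp [hv])
      have hB : B ⊆ G e' := fun v hv => hP (by simp [hv])
      have hx1W : x1 ∈ W := hW (by simp)
      have hAW : A ⊆ W := fun v hv => hW (by simp [hv])
      have hBW : B ⊆ W := fun v hv => hW (by simp [hv])
      have hxW : x ∈ W := hW (by simp)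
      simp only [Fn.off, if_true] at hc
      have hoc : ∀ j, (0 : ℝ) ≤ c.off e' j := fun j => Nat.cast_nonneg _
      have hos : ∀ j, (0 : ℝ) ≤ s.off e' j := fun j => Nat.cast_nonneg _
      obtain ⟨Q1, q1, q2, q3, q4⟩ := ihc e' hV2 hD2 (fun j => (hM j).2.1) x1 hx1 A hA h2 h6 W
        (by intro v hv; rw [mem_insert] at hv; rcases hv with rfl | hv; exacts [hx1W, hAW hv]) (by
          intro j hj
          have := hc j (by omega)
          push_cast at this
          have := hos j
          linarith)
      obtain ⟨Q2, r1, r2, r3, r4⟩ := ihs e' hV3 hD3 (fun j => (hM j).2.2) x hx B hB (by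
          intro hxB; exact hxP (by simp [hxB])) h7 (W ∪ Q1)
        (by intro v hv; rw [mem_insert] at hv; rcases hv with rfl | hv; exacts [mem_union_left _ hxW, mem_union_left _ (hBW hv)]) (by
          intro j hj
          have e1 := hc j (by omega)
          push_cast at e1
          have e2 : (((W ∪ Q1) ∩ G j).card : ℝ) ≤ (W ∩ G j).card + c.off e' j := by
            have : ((W ∪ Q1) ∩ G j).card ≤ (W ∩ G j).card + (Q1 ∩ G j).card := by
              rw [union_inter_distrib_right]; exact card_union_le _ _
            exact_mod_cast this.trans (by have := q4 j; omega)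
          linarith)
      rw [disjoint_union_right] at r2
      refine ⟨Q1 ∪ Q2, union_subset q1 r1, disjoint_union_left.2 ⟨q2, r2.1⟩, ?_, ?_⟩
      · refine ⟨x1, A ∪ Q1, B ∪ Q2, h1, ?_, ?_, ?_, ?_, q3, r3⟩
        · rw [mem_union, not_or]
          exact ⟨h2, fun h => disjoint_left.1 q2 h hx1W⟩
        · rw [mem_union, not_or]
          exact ⟨h3, fun h => disjoint_left.1 r2.1 h hx1W⟩
        · rw [disjoint_union_left, disjoint_union_right, disjoint_union_right]
          exact ⟨⟨h4, (r2.1.mono_right hAW).symm⟩, ⟨q2.mono_right hBW, r2.2.symm⟩⟩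
        · ext v
          simp only [mem_union, mem_insert]
          tauto
      · intro j
        simp only [Fn.off, if_true]
        have : ((Q1 ∪ Q2) ∩ G j).card ≤ (Q1 ∩ G j).card + (Q2 ∩ G j).card := by
          rw [union_inter_distrib_right]; exact card_union_le _ _
        have := q4 j
        have := r4 j
        omega
    · simp only [Fn.top, if_neg h] at hE
      have hxW : x ∈ W := hW (by simp)
      have hPW : P ⊆ W := fun v hv => hW (by simp [hv])
      -- the off-label tree
      have hnb : ((G e').card : ℝ) - ν ≤ ((nb R d (G e') x).card : ℝ) := by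
        have h1 : (((G e').filter (fun v => ¬ Adj R d x v)).card : ℝ) ≤ ν := by
          cases d with
          | true =>
            rw [if_pos rfl] at hV1
            exact (hT e e' (by omega)).1 x hx
          | false =>
            rw [if_neg (by simp)] at hV1
            exact (hT e' e (by omega)).2 x hx
        have h2 : ((nb R d (G e') x).card : ℝ) + (((G e').filter (fun v => ¬ Adj R d x v)).card : ℝ) = (G e').card := by
          exact_mod_cast card_nb_add
        linarith
      have hoff : Fn.off e e' (.node d e' c s) = 1 + c.num e' + s.off e e' := by simp [Fn.off, h]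
      have hsz := Fn.size_top e' c
      have hsd : ((nb R d (G e') x).card : ℝ) - (W ∩ G e').card ≤ ((nb R d (G e') x \ W).card : ℝ) := by
        have h1 : (nb R d (G e') x).card ≤ (nb R d (G e') x \ W).card + (W ∩ G e').card := by
          rw [← card_sdiff_add_card_inter (nb R d (G e') x) W]
          apply Nat.add_le_add_left
          apply card_le_card
          intro v hv
          rw [mem_inter, mem_nb] at hv
          rw [mem_inter]
          exact ⟨hv.2, hv.1.1⟩
        have : ((nb R d (G e') x).card : ℝ) ≤ (nb R d (G e') x \ W).card + (W ∩ G e').card := by exact_mod_cast h1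
        linarith
      have hce := hc e' (by omega)
      rw [hoff] at hce
      push_cast at hce
      have hszr : (c.num e' : ℝ) = (c.top e').size + c.off e' e' := by exact_mod_cast hsz.symm
      have p1 : (0 : ℝ) ≤ c.off e' e' := Nat.cast_nonneg _
      have p2 : (0 : ℝ) ≤ s.off e e' := Nat.cast_nonneg _
      have p3 : (0 : ℝ) ≤ (c.top e').size := Nat.cast_nonneg _
      have hMx : ((c.top e').size : ℝ) + 1 ≤ M e' := by exact_mod_cast (hM e').1 h rfl
      obtain ⟨x1, hx1, A, hA, hxA, -, hEA⟩ := hU (c.top e') ((Fn.len_top e' c).trans hD1) (Fn.deg_top e' c hD2)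
        (nb R d (G e') x \ W) (by
          have h8 : (ρ - 1) * ((c.top e').size + 1) ≤ (ρ - 1) * M e' := mul_le_mul_of_nonneg_left hMx (by linarith)
          have h9 : ρ * (((c.top e').size : ℝ) + 1) = ((c.top e').size + 1) + (ρ - 1) * ((c.top e').size + 1) := by ring
          rw [h9]
          linarith)
      rw [mem_sdiff, mem_nb] at hx1
      have hAG : A ⊆ G e' := fun v hv => (mem_nb.1 (mem_sdiff.1 (hA hv)).1).1
      have hAW : Disjoint A W := by
        rw [disjoint_left]
        intro v hv
        exact (mem_sdiff.1 (hA hv)).2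
      have hcardA := hEA.card
      have hI : insert x1 A ⊆ G e' := by
        intro v hv
        rw [mem_insert] at hv
        rcases hv with rfl | hv
        exacts [hx1.1.1, hAG hv]
      have hID : Disjoint (insert x1 A) W := by
        rw [disjoint_insert_left]
        exact ⟨hx1.2, hAW⟩
      have hIc : (insert x1 A).card = (c.top e').size + 1 := by
        rw [card_insert_of_notMem hxA, hcardA]
      -- the sizes of `W ∪ insert x1 A`
      have hWj : ∀ j, (((W ∪ insert x1 A) ∩ G j).card : ℝ) ≤
          (W ∩ G j).card + (if e' = j then ((c.top e').size : ℝ) + 1 else 0) := by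
        intro j
        have h1 : ((W ∪ insert x1 A) ∩ G j).card ≤ (W ∩ G j).card + (insert x1 A ∩ G j).card := by
          rw [union_inter_distrib_right]; exact card_union_le _ _
        have h2 : (insert x1 A ∩ G j).card ≤ if e' = j then (c.top e').size + 1 else 0 := by
          split_ifs with hj
          · rw [← hIc]; exact card_le_card inter_subset_left
          · rw [Nat.le_zero, card_eq_zero, ← disjoint_iff_inter_eq_empty]
            exact (hG e' j hj).mono_left hI
        have h3 : ((W ∪ insert x1 A) ∩ G j).card ≤ (W ∩ G j).card + if e' = j then (c.top e').size + 1 else 0 := by omega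
        have h4 : (((W ∪ insert x1 A) ∩ G j).card : ℝ) ≤
            ((((W ∩ G j).card + if e' = j then (c.top e').size + 1 else 0) : ℕ) : ℝ) := by exact_mod_cast h3
        refine h4.trans (le_of_eq ?_)
        push_cast
        rfl
      have hnum : ∀ j, (c.num j : ℝ) = c.off e' j + (if e' = j then ((c.top e').size : ℝ) else 0) := by
        intro j
        by_cases hj : e' = j
        · subst hj
          rw [if_pos rfl, hszr]; ring
        · rw [if_neg hj, Fn.off_ne (fun h => hj h.symm)]; ring
      have hoffn : ∀ j, Fn.off e j (.node d e' c s) = (if e' = j then 1 else 0) + c.num j + s.off e j := by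
        intro j
        simp only [Fn.off, if_neg h]
      have hoffc : ∀ j, c.off e' j ≤ c.num j := by
        intro j
        by_cases hj : e' = j
        · subst hj
          omega
        · rw [Fn.off_ne (fun h => hj h.symm)]
      have hoffj : ∀ j, (Fn.off e j (.node d e' c s) : ℝ) = (if e' = j then (1 : ℝ) else 0) + c.num j + s.off e j := by
        intro j
        simp only [Fn.off, if_neg h]
        push_cast
        rfl
      obtain ⟨Q1, q1, q2, q3, q4⟩ := ihc e' hV2 hD2 (fun j => (hM j).2.1) x1 hx1.1.1 A hAG hxA hEA (W ∪ insert x1 A)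
        subset_union_right (by
        intro j hj0
        have e1 := hc j (by have := hoffn j; have := hoffc j; omega)
        rw [hoffj, hnum] at e1
        have e2 := hWj j
        have p1 : (0 : ℝ) ≤ c.off e' j := Nat.cast_nonneg _
        have p2 : (0 : ℝ) ≤ s.off e j := Nat.cast_nonneg _
        split_ifs at e1 e2 with hj
        · linarith
        · linarith)
      have hxG : x ∈ W ∪ insert x1 A ∪ Q1 := by simp [hxW]
      obtain ⟨Q2, r1, r2, r3, r4⟩ := ihs e hV3 hD3 (fun j => (hM j).2.2) x hx P hP hxP hE (W ∪ insert x1 A ∪ Q1) (by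
          intro v hv
          rw [mem_insert] at hv
          rcases hv with rfl | hv
          · exact hxG
          · simp [hPW hv]) (by
        intro j hj0
        have e1 := hc j (by have := hoffn j; omega)
        rw [hoffj, hnum] at e1
        have e2 := hWj j
        have e3 : (((W ∪ insert x1 A ∪ Q1) ∩ G j).card : ℝ) ≤ ((W ∪ insert x1 A) ∩ G j).card + c.off e' j := by
          have : ((W ∪ insert x1 A ∪ Q1) ∩ G j).card ≤ ((W ∪ insert x1 A) ∩ G j).card + (Q1 ∩ G j).card := by
            rw [union_inter_distrib_right]; exact card_union_le _ _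
          exact_mod_cast this.trans (by have := q4 j; omega)
        have p1 : (0 : ℝ) ≤ c.off e' j := Nat.cast_nonneg _
        have p2 : (0 : ℝ) ≤ s.off e j := Nat.cast_nonneg _
        split_ifs at e1 e2 with hj
        · linarith
        · linarith)
      rw [disjoint_union_right] at q2
      rw [disjoint_union_right, disjoint_union_right] at r2
      have hIQ1 : Disjoint (insert x1 A) Q1 := q2.2.symm
      refine ⟨insert x1 A ∪ Q1 ∪ Q2, union_subset (union_subset (hI.trans (hX e')) q1) r1, ?_, ?_, ?_⟩
      · rw [disjoint_union_left, disjoint_union_left]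
        exact ⟨⟨hID, q2.1⟩, r2.1.1⟩
      · refine ⟨x1, A ∪ Q1, P ∪ Q2, hx1.1.2, ?_, ?_, ?_, ?_, q3, r3⟩
        · rw [mem_union, not_or]
          exact ⟨hxA, fun h => disjoint_left.1 hIQ1 (mem_insert_self _ _) h⟩
        · rw [mem_union, not_or]
          exact ⟨fun h => hx1.2 (hPW h), fun h => disjoint_left.1 r2.1.2 h (mem_insert_self _ _)⟩
        · rw [disjoint_union_left, disjoint_union_right, disjoint_union_right]
          refine ⟨⟨hAW.mono_right hPW, ?_⟩, ⟨q2.1.mono_right hPW, r2.2.symm⟩⟩
          exact (r2.1.2.mono_right (subset_insert _ _)).symm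
        · ext v
          simp only [mem_union, mem_insert]
          tauto
      · intro j
        have h1 : ((insert x1 A ∪ Q1 ∪ Q2) ∩ G j).card ≤ (insert x1 A ∩ G j).card + (Q1 ∩ G j).card + (Q2 ∩ G j).card := by
          rw [union_inter_distrib_right, union_inter_distrib_right]
          exact (card_union_le _ _).trans (Nat.add_le_add_right (card_union_le _ _) _)
        have h2 : (insert x1 A ∩ G j).card ≤ if e' = j then (c.top e').size + 1 else 0 := by
          split_ifs with hj
          · rw [← hIc]; exact card_le_card inter_subset_left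
          · rw [Nat.le_zero, card_eq_zero, ← disjoint_iff_inter_eq_empty]
            exact (hG e' j hj).mono_left hI
        have h3 := q4 j
        have h4 := r4 j
        simp only [Fn.off, if_neg h]
        by_cases hj : e' = j
        · subst hj
          rw [if_pos rfl] at h2 ⊢
          omega
        · rw [if_neg hj] at h2 ⊢
          rw [Fn.off_ne (fun h => hj h.symm)] at h3
          omega

end AEK
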