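import Pool.Agent.AEK.Defs

/-!
# Changing the root of a tree
-/

namespace AEK

open Finset AE15 AED AELT AEX
open scoped Classical

/-- two forests at the same vertex -/
def fapp : Fd → Fd → Fd
  | .nil, G => G
  | .node d c s, G => .node d c (fapp s G)

theorem fapp_trees (F G : Fd) : (fapp F G).trees = F.trees ++ G.trees := by
  induction F with
  | nil => rfl
  | node d c s _ ih => simp [fapp, Fd.trees, ih]

theorem fapp_len (F G : Fd) : (fapp F G).len = F.len + G.len := by
  rw [Fd.len_eq, Fd.len_eq, Fd.len_eq, fapp_trees, List.length_append]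

theorem fapp_size (F G : Fd) : (fapp F G).size = F.size + G.size := by
  induction F with
  | nil => simp [fapp, Fd.size]
  | node d c s _ ih => simp only [fapp, Fd.size, ih]; omega

theorem fapp_deg {b : ℕ} {F G : Fd} (hF : F.Deg b) (hG : G.Deg b) : (fapp F G).Deg b := by
  rw [Fd.deg_iff, fapp_trees]
  rw [Fd.deg_iff] at hF hG
  intro p hp
  rcases List.mem_append.1 hp with h | h
  exacts [hF p h, hG p h]

theorem Fn.app_un (F G : Fn) : (F.app G).un = fapp F.un G.un := by
  induction F with
  | nil => rfl
  | node d e c s _ ih => simp [Fn.app, Fn.un, fapp, ih]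

theorem Fn.app_num (j : ℕ) (F G : Fn) : (F.app G).num j = F.num j + G.num j := by
  induction F with
  | nil => simp [Fn.app, Fn.num]
  | node d e c s _ ih => simp only [Fn.app, Fn.num, ih]; omega

theorem Fn.app_ok {e : ℕ} {F G : Fn} (hF : F.Ok e) (hG : G.Ok e) : (F.app G).Ok e := by
  induction F with
  | nil => exact hG
  | node d e' c s _ ih => exact ⟨hF.1, hF.2.1, ih hF.2.2⟩

theorem adj_not {V : Type*} {R : V → V → Prop} {d : Bool} {x y : V} : Adj R (!d) y x ↔ Adj R d x y := by
  cases d <;> simp [Adj]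

/-- an embedding of a tree with another root -/
theorem emb_reroot {V : Type*} {R : V → V → Prop} {d : Bool} {c s : Fd} {y : V} {B : Finset V}
    (h : Emb R (.node (!d) s c) y B) (hy : y ∉ B) : ∃ x B', x ∉ B' ∧ insert x B' = insert y B ∧
      Emb R (.node d c s) x B' := by
  obtain ⟨x, A', B', h1, h2, h3, h4, rfl, h6, h7⟩ := h
  rw [mem_insert, mem_union, not_or, not_or] at hy
  obtain ⟨hy1, hy2, hy3⟩ := hy
  refine ⟨x, insert y (B' ∪ A'), ?_, ?_, y, B', A', adj_not.1 h1, hy3, hy2, h4.symm, rfl, h7, h6⟩
  · rw [mem_insert, mem_union, not_or, not_or]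
    exact ⟨fun h => hy1 h.symm, h3, h2⟩
  · ext v
    simp only [mem_insert, mem_union]
    tauto

theorem emb_perm {V : Type*} {R : V → V → Prop} {F F' : Fd} (h : F.trees.Perm F'.trees) {x : V} {A : Finset V}
    (hE : Emb R F x A) : Emb R F' x A := by
  rw [emb_iff] at hE ⊢
  exact hE.perm h

/-- **Changing the root**: if some component with label `j` has more than `S` vertices, its root can be made the root
of the tree -/
theorem reroot (j S b : ℕ) (F : Fn) : ∀ e, ¬ F.Mx j S e → F.Ok e → F.un.Deg b → ∀ G : Fn, G.Ok e → G.un.Deg b →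
    F.un.len + G.un.len ≤ b + 1 → ∃ H : Fn, H.Ok j ∧ H.un.Deg b ∧ H.un.len ≤ b + 1 ∧ S < (H.top j).size + 1 ∧
      (∀ i, H.num i + (if j = i then 1 else 0) = F.num i + G.num i + (if e = i then 1 else 0)) ∧
      ∀ {V : Type} {R : V → V → Prop} (y : V) (B : Finset V), y ∉ B → Emb R H.un y B →
        ∃ x B', x ∉ B' ∧ insert x B' = insert y B ∧ Emb R (F.app G).un x B' := by
  induction F with
  | nil => exact fun e h => absurd trivial h
  | node d e' c s ihc ihs =>
    intro e hM hO hD G hG hGD hlen
    obtain ⟨hO1, hO2, hO3⟩ := hO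
    obtain ⟨hD1, hD2, hD3⟩ := hD
    simp only [Fn.un, Fd.len] at hlen
    have hsG : (s.app G).Ok e := Fn.app_ok hO3 hG
    have hsl : (s.app G).un.len ≤ b := by
      rw [Fn.app_un, fapp_len]
      omega
    have hsD : (s.app G).un.Deg b := by
      rw [Fn.app_un]
      exact fapp_deg hD3 hGD
    have hO1' : if (!d) = true then e' ≤ e else e ≤ e' := by
      cases d <;> simpa using hO1
    by_cases h1 : e' ≠ e → e' = j → (c.top e').size + 1 ≤ S
    · by_cases h2 : c.Mx j S e'
      · have h3 : ¬ s.Mx j S e := fun h3 => hM ⟨h1, h2, h3⟩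
        obtain ⟨H, a1, a2, a3, a4, a5, a6⟩ := ihs e h3 hO3 hD3 (.node d e' c G) ⟨hO1, hO2, hG⟩ ⟨hD1, hD2, hGD⟩
          (by simp only [Fn.un, Fd.len]; omega)
        refine ⟨H, a1, a2, a3, a4, ?_, ?_⟩
        · intro i
          rw [a5 i]
          simp only [Fn.num]
          omega
        · intro V R y B hy hE
          obtain ⟨x, B', b1, b2, b3⟩ := a6 y B hy hE
          refine ⟨x, B', b1, b2, emb_perm ?_ b3⟩
          rw [Fn.app_un, Fn.app_un, fapp_trees, fapp_trees]
          simp only [Fn.un, Fd.trees]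
          rw [List.cons_append]
          exact List.perm_middle
      · obtain ⟨H, a1, a2, a3, a4, a5, a6⟩ := ihc e' h2 hO2 hD2 (.node (!d) e (s.app G) .nil) ⟨hO1', hsG, trivial⟩
          ⟨hsl, hsD, trivial⟩ (by simp only [Fn.un, Fd.len]; omega)
        refine ⟨H, a1, a2, a3, a4, ?_, ?_⟩
        · intro i
          rw [a5 i]
          simp only [Fn.num, Fn.app_num]
          omega
        · intro V R y B hy hE
          obtain ⟨x, B', b1, b2, b3⟩ := a6 y B hy hE
          have b4 : Emb R (.node (!d) (s.app G).un c.un) x B' := by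
            refine emb_perm ?_ b3
            rw [Fn.app_un, fapp_trees]
            simp only [Fn.un, Fd.trees]
            exact List.perm_append_comm
          obtain ⟨x', B'', c1, c2, c3⟩ := emb_reroot b4 b1
          exact ⟨x', B'', c1, c2.trans b2, c3⟩
    · push Not at h1
      obtain ⟨h1, rfl, h3⟩ := h1
      refine ⟨.node (!d) e (s.app G) c, ⟨hO1', hsG, hO2⟩, ⟨hsl, hsD, hD2⟩, ?_, ?_, ?_, ?_⟩
      · simp only [Fn.un, Fd.len]
        omega
      · rw [Fn.top, if_neg (Ne.symm h1)]
        exact h3
      · intro i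
        simp only [Fn.num, Fn.app_num]
        omega
      · intro V R y B hy hE
        exact emb_reroot hE hy

/-- **A branch of prescribed size at the root**: the root is moved to the root of a branch with more than `m` and at most
`b * m + 1` vertices; `g` is the rest, hanging at the new root -/
theorem branch_root (b m : ℕ) (c : Fd) : c.Deg b → (∃ p ∈ c.trees, m < p.2.size + 1) → ∀ G : Fd, G.Deg b →
    c.len + G.len ≤ b + 1 → ∃ (d : Bool) (c₁ g : Fd), m < c₁.size + 1 ∧ c₁.size + 1 ≤ b * m + 1 ∧
      c₁.size + g.size + 1 = c.size + G.size ∧ c₁.len ≤ b ∧ c₁.Deg b ∧ g.len ≤ b ∧ g.Deg b ∧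
      ∀ {V : Type} {R : V → V → Prop} (y : V) (B : Finset V), y ∉ B → Emb R (.node (!d) g c₁) y B →
        ∃ x B', x ∉ B' ∧ insert x B' = insert y B ∧ Emb R (fapp c G) x B' := by
  induction c with
  | nil => rintro - ⟨p, hp, -⟩; simp [Fd.trees] at hp
  | node d c s ihc ihs =>
    intro hD hp G hG hlen
    obtain ⟨hD1, hD2, hD3⟩ := hD
    simp only [Fd.len] at hlen
    have hsl : (fapp s G).len ≤ b := by
      rw [fapp_len]
      omega
    have hsD : (fapp s G).Deg b := fapp_deg hD3 hG
    by_cases h1 : c.size + 1 ≤ m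
    · have hp' : ∃ p ∈ s.trees, m < p.2.size + 1 := by
        obtain ⟨p, hp, hp'⟩ := hp
        simp only [Fd.trees, List.mem_cons] at hp
        rcases hp with rfl | hp
        · exact absurd hp' (by simp only; omega)
        · exact ⟨p, hp, hp'⟩
      obtain ⟨d₁, c₁, g, a1, a2, a3, a4, a5, a6, a7, a8⟩ := ihs hD3 hp' (.node d c G) ⟨hD1, hD2, hG⟩
        (by simp only [Fd.len]; omega)
      refine ⟨d₁, c₁, g, a1, a2, ?_, a4, a5, a6, a7, ?_⟩
      · rw [a3]
        simp only [Fd.size]
        omega
      · intro V R y B hy hE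
        obtain ⟨x, B', b1, b2, b3⟩ := a8 y B hy hE
        refine ⟨x, B', b1, b2, emb_perm ?_ b3⟩
        rw [fapp_trees, fapp_trees]
        simp only [Fd.trees]
        rw [List.cons_append]
        exact List.perm_middle
    · by_cases h2 : c.size + 1 ≤ b * m + 1
      · refine ⟨d, c, fapp s G, by omega, h2, ?_, hD1, hD2, hsl, hsD, ?_⟩
        · rw [fapp_size]
          simp only [Fd.size]
          omega
        · intro V R y B hy hE
          exact emb_reroot hE hy
      · have hp' : ∃ p ∈ c.trees, m < p.2.size + 1 := by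
          by_contra hcon
          push Not at hcon
          have := tsz_le_of_small m c hcon
          have h3 := Nat.mul_le_mul_right m hD1
          omega
        obtain ⟨d₁, c₁, g, a1, a2, a3, a4, a5, a6, a7, a8⟩ := ihc hD2 hp' (.node (!d) (fapp s G) .nil)
          ⟨hsl, hsD, trivial⟩ (by simp only [Fd.len]; omega)
        refine ⟨d₁, c₁, g, a1, a2, ?_, a4, a5, a6, a7, ?_⟩
        · rw [a3]
          simp only [Fd.size, fapp_size]
          omega
        · intro V R y B hy hE
          obtain ⟨x, B', b1, b2, b3⟩ := a8 y B hy hE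
          have b4 : Emb R (.node (!d) (fapp s G) c) x B' := by
            refine emb_perm ?_ b3
            rw [fapp_trees]
            simp only [Fd.trees]
            exact List.perm_append_comm
          obtain ⟨x', B'', c1, c2, c3⟩ := emb_reroot b4 b1
          exact ⟨x', B'', c1, c2.trans b2, c3⟩

end AEK
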