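import Pool.Agent.AEK.Stmt
import Pool.Agent.AEK.Reroot
import Pool.Agent.AEK.Extm
import Pool.Agent.AEX.Main

/-!
# The thick case
-/

namespace AEK

open Finset AE15 AED AELT
open scoped Classical

theorem Fn.off_le (e j : ℕ) (F : Fn) : F.off e j ≤ F.num j := by
  by_cases h : j = e
  · subst h
    have := Fn.size_top j F
    omega
  · rw [Fn.off_ne h]

theorem Fn.Mx.mono {j M M' : ℕ} (hM : M ≤ M') {F : Fn} : ∀ {e : ℕ}, F.Mx j M e → F.Mx j M' e := by
  induction F with
  | nil => intro e _; trivial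
  | node d l c s ihc ihs =>
    rintro e ⟨h1, h2, h3⟩
    exact ⟨fun a b => (h1 a b).trans hM, ihc h2, ihs h3⟩

theorem Fn.mx_off (j : ℕ) (F : Fn) : ∀ e : ℕ, F.Mx j (F.off e j) e := by
  induction F with
  | nil => intro e; trivial
  | node d l c s ihc ihs =>
    intro e
    by_cases h : l = e
    · subst h
      simp only [Fn.off, if_true]
      exact ⟨fun h => absurd rfl h, (ihc l).mono (Nat.le_add_right _ _), (ihs l).mono (Nat.le_add_left _ _)⟩
    · simp only [Fn.off, if_neg h]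
      refine ⟨fun _ hj => ?_, (ihc l).mono ?_, (ihs e).mono (Nat.le_add_left _ _)⟩
      · subst hj
        have := Fn.size_top l c
        rw [if_pos rfl]
        omega
      · have := Fn.off_le l j c
        omega

theorem Fn.num_big {F : Fn} (h : F.Le2) {j : ℕ} (hj : 3 ≤ j) : F.num j = 0 := by
  induction F with
  | nil => rfl
  | node d l c s ihc ihs =>
    obtain ⟨h1, h2, h3⟩ := h
    simp only [Fn.num, ihc h2, ihs h3]
    rw [if_neg (by omega)]

theorem Fn.app_nil (F : Fn) : F.app .nil = F := by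
  induction F with
  | nil => rfl
  | node d l c s _ ihs => simp [Fn.app, ihs]

theorem deg_mono {b b' : ℕ} (hb : b ≤ b') {c : Fd} (h : c.Deg b) : c.Deg b' := by
  induction c with
  | nil => trivial
  | node d c s ihc ihs =>
    obtain ⟨h1, h2, h3⟩ := h
    exact ⟨h1.trans hb, ihc h2, ihs h3⟩

/-- the number of vertices of every label, the component of the root being placed -/
theorem tot {V : Type*} {R : V → V → Prop} {G : ℕ → Finset V} (hG : ∀ i j, i ≠ j → Disjoint (G i) (G j)) {e : ℕ}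
    {F : Fn} {x : V} {P : Finset V} (hx : x ∈ G e) (hP : P ⊆ G e) (hxP : x ∉ P) (hE : Emb R (F.top e) x P) (j : ℕ) :
    F.off e j + (insert x P ∩ G j).card = F.num j + (if e = j then 1 else 0) := by
  have hI : insert x P ⊆ G e := insert_subset hx hP
  by_cases h : e = j
  · subst h
    rw [inter_eq_left.2 hI, card_insert_of_notMem hxP, hE.card, if_pos rfl]
    have := Fn.size_top e F
    omega
  · rw [disjoint_iff_inter_eq_empty.1 ((hG e j h).mono_left hI), card_empty, if_neg h, Fn.off_ne (fun h' => h h'.symm)]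

/-- arithmetic of the thick case -/
theorem thick_arith {β ρ ε g C m S : ℝ} (hβ : 0 < β) (hβ1 : β ≤ 1) (hρ : 1 + β ≤ ρ) (hρ4 : ρ ≤ 4)
    (hε : ε = β ^ 2 / 4096) (hC : 0 ≤ C) (hm0 : 0 ≤ m) (hm : ρ * m ≤ (1 + 4 * ε) * g + 2 * C + 8)
    (hg : 4 * C + 40 ≤ β ^ 2 * g / 64) (hS : S ≤ (1 - β / 16) * m) :
    m ≤ (1 - β / 4) * g ∧ m + (ρ - 1) * S + C + ε * g ≤ g ∧ m + (ρ - 1) * (β / 16 * m) + C + ε * g ≤ g := by
  have hg0 : 0 ≤ g := by
    by_contra h
    push Not at h
    have : β ^ 2 * g ≤ 0 := mul_nonpos_of_nonneg_of_nonpos (by positivity) h.le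
    linarith only [this, hg, hC]
  have hβ2 : β ^ 2 ≤ β := by
    have h0 := mul_le_mul_of_nonneg_left hβ1 hβ.le
    rw [mul_one] at h0
    rw [sq]
    exact h0
  have hβg : β ^ 2 * g ≤ β * g := mul_le_mul_of_nonneg_right hβ2 hg0
  have hβg0 : 0 ≤ β ^ 2 * g := by positivity
  have hm' : ρ * m ≤ g + β ^ 2 * g / 1024 + 2 * C + 8 := by
    rw [hε] at hm
    linarith only [hm]
  have h1 : (1 + β) * m ≤ ρ * m := mul_le_mul_of_nonneg_right hρ hm0
  have h2 : (1 + β) * m ≤ g + β ^ 2 * g / 32 := by linarith only [h1, hm', hg, hβg0]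
  -- `m ≤ (1 - β/4) g`
  have h3 : m ≤ (1 - β / 4) * g := by
    have h4 : g + β ^ 2 * g / 32 ≤ (1 + β) * ((1 - β / 4) * g) := by
      have : (1 + β) * ((1 - β / 4) * g) = g + 3 / 4 * (β * g) - β ^ 2 * g / 4 := by ring
      rw [this]
      linarith only [hβg, hβg0]
    exact le_of_mul_le_mul_left (h2.trans h4) (by linarith only [hβ])
  refine ⟨h3, ?_, ?_⟩
  · have h5 : (ρ - 1) * S ≤ (ρ - 1) * ((1 - β / 16) * m) := mul_le_mul_of_nonneg_left hS (by linarith only [hρ, hβ])
    have h6 : m + (ρ - 1) * ((1 - β / 16) * m) = ρ * m - β / 16 * ((ρ - 1) * m) := by ring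
    -- `(ρ - 1) m ≥ β/2 * (ρ m)`
    have h7 : β / 2 * (ρ * m) ≤ (ρ - 1) * m := by
      have : 0 ≤ ((ρ - 1) - β / 2 * ρ) := by
        have h0 := mul_le_mul_of_nonneg_right hρ (show 0 ≤ 1 - β / 2 by linarith only [hβ1])
        linarith only [h0, hβ2]
      have h0 := mul_nonneg this hm0
      linarith only [h0]
    by_cases hcase : g / 2 ≤ ρ * m
    · have h8 : β / 16 * (β / 2 * (g / 2)) ≤ β / 16 * ((ρ - 1) * m) := by
        refine mul_le_mul_of_nonneg_left ?_ (by positivity)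
        refine le_trans ?_ h7
        exact mul_le_mul_of_nonneg_left hcase (by positivity)
      have h9 : β / 16 * (β / 2 * (g / 2)) = β ^ 2 * g / 64 := by ring
      rw [h9] at h8
      rw [hε]
      linarith only [h5, h6, h8, hm', hg, hβg0]
    · push Not at hcase
      have h10 : 0 ≤ β / 16 * ((ρ - 1) * m) := by
        have : 0 ≤ (ρ - 1) * m := mul_nonneg (by linarith only [hρ, hβ]) hm0
        positivity
      rw [hε]
      have h11 : β ^ 2 * g ≤ 1 * g := mul_le_mul_of_nonneg_right (hβ2.trans hβ1) hg0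
      linarith only [h5, h6, h10, hcase, hg, h11, hβg0, hg0]
  · have h5 : (ρ - 1) * (β / 16 * m) ≤ 3 * (β / 16 * m) := mul_le_mul_of_nonneg_right (by linarith only [hρ4]) (by positivity)
    have h6 : 3 * (β / 16 * m) ≤ 3 * (β / 16 * g) := by
      have : β / 16 * m ≤ β / 16 * g := by
        refine mul_le_mul_of_nonneg_left ?_ (by positivity)
        have : 0 ≤ β * g := by positivity
        linarith only [h3, this]
      linarith only [this]
    rw [hε]
    have hβg0' : 0 ≤ β * g := by positivity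
    linarith only [h3, h5, h6, hg, hβg, hβg0']

/-- **The thick case** -/
theorem thick (b : ℕ) (_hb : 1 ≤ b) {β : ℝ} (hβ : 0 < β) (hβ1 : β ≤ 1) : ∃ ε γ : ℝ, 0 < ε ∧ ε ≤ 1 ∧ 0 < γ ∧
    ∀ δ θ : ℝ, 0 < δ → 0 < θ → θ ≤ 1 → ∀ C : ℝ, 0 ≤ C →
    ∃ n₁ : ℕ, ∀ {V : Type} {R : V → V → Prop}, AE32.Tour R → ∀ ρ : ℝ, 1 + β ≤ ρ → ρ ≤ 4 → Un R b ρ C →
      ∀ (X : Finset V) (G : ℕ → Finset V), n₁ ≤ X.card → Thk R X δ ε θ G → ∀ c : Fd, c.len ≤ b → c.Deg b →
        ρ * (c.size + 1) ≤ X.card + γ * (G 1).card → In R c (fun _ => True) X := by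
  obtain ⟨ε, hε⟩ : ∃ ε : ℝ, ε = β ^ 2 / 4096 := ⟨_, rfl⟩
  have hε0 : 0 < ε := by rw [hε]; positivity
  have hβ2 : β ^ 2 ≤ 1 := pow_le_one₀ hβ.le hβ1
  refine ⟨ε, ε, hε0, by rw [hε]; linarith only [hβ2], hε0, ?_⟩
  intro δ θ hδ hθ hθ1 C hC
  obtain ⟨n₀, hn₀⟩ := AEX.main (b + 1) (Nat.le_add_left 1 b) hθ hθ1 (show 0 < β / 4 by positivity)
  obtain ⟨n₁, hn₁⟩ := exists_nat_ge ((n₀ + (4 * C + 40) * (64 / β ^ 2) + 1) / δ)
  refine ⟨n₁, ?_⟩
  intro V R hT ρ hρ hρ4 hU X G hX hThk c hl hd hc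
  obtain ⟨⟨hsub, hdis, -, htyp⟩, hδX, hEx, hXG⟩ := hThk
  obtain ⟨g, hg⟩ : ∃ g : ℝ, g = ((G 1).card : ℝ) := ⟨_, rfl⟩
  rw [← hg] at hδX hEx hXG hc htyp
  have hρ0 : 0 < ρ := by linarith only [hρ, hβ]
  have hρ1 : 1 ≤ ρ := by linarith only [hρ, hβ]
  have hC0 : 0 ≤ (4 * C + 40) * (64 / β ^ 2) := by positivity
  have hbig : (n₀ + (4 * C + 40) * (64 / β ^ 2) + 1 : ℝ) ≤ g := by
    rw [div_le_iff₀ hδ] at hn₁
    have h1 : (n₁ : ℝ) * δ ≤ X.card * δ := mul_le_mul_of_nonneg_right (by exact_mod_cast hX) hδ.le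
    linarith only [hn₁, h1, hδX]
  have hn₀0 : (0 : ℝ) ≤ n₀ := Nat.cast_nonneg _
  have hg0 : 0 < g := by linarith only [hbig, hC0, hn₀0]
  have hgC : 4 * C + 40 ≤ β ^ 2 * g / 64 := by
    have h1 : (4 * C + 40) * (64 / β ^ 2) ≤ g := by linarith only [hbig, hn₀0]
    have h2 : (4 * C + 40) * (64 / β ^ 2) * (β ^ 2 / 64) ≤ g * (β ^ 2 / 64) := mul_le_mul_of_nonneg_right h1 (by positivity)
    have h3 : (4 * C + 40) * (64 / β ^ 2) * (β ^ 2 / 64) = 4 * C + 40 := by field_simp
    rw [h3] at h2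
    linarith only [h2]
  have hgn : n₀ ≤ (G 1).card := by
    have h1 : (n₀ : ℝ) ≤ ((G 1).card : ℝ) := by rw [← hg]; linarith only [hbig, hC0]
    exact_mod_cast h1
  obtain ⟨ν, hν⟩ : ∃ ν : ℝ, ν = ε * g := ⟨_, rfl⟩
  have hν0 : 0 ≤ ν := by rw [hν]; positivity
  rw [← hν] at htyp
  -- the counts
  obtain ⟨q, hq⟩ : ∃ q : ℕ → ℕ, q = fun j => ⌊(((G j).card : ℝ) - C - ν) / ρ⌋₊ := ⟨_, rfl⟩
  have hq1 : ∀ j, ((G j).card : ℝ) - C - ν - ρ ≤ ρ * q j := by
    intro j
    have h1 : (((G j).card : ℝ) - C - ν) / ρ < q j + 1 := by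
      rw [hq]
      exact Nat.lt_floor_add_one _
    rw [div_lt_iff₀ hρ0] at h1
    linarith only [h1]
  have hq2 : ∀ j, q j ≠ 0 → ρ * q j + C + ν ≤ ((G j).card : ℝ) := by
    intro j hj
    have h1 : (q j : ℝ) ≤ (((G j).card : ℝ) - C - ν) / ρ := by
      rw [hq] at hj ⊢
      simp only at hj ⊢
      exact Nat.floor_le (Nat.pos_of_floor_pos (Nat.pos_of_ne_zero hj)).le
    rw [le_div_iff₀ hρ0] at h1
    linarith only [h1]
  obtain ⟨a₀, ha₀⟩ : ∃ a₀ : ℕ, a₀ = min (q 0) (c.size + 1) := ⟨_, rfl⟩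
  obtain ⟨a₂, ha₂⟩ : ∃ a₂ : ℕ, a₂ = min (q 2) (c.size + 1 - a₀) := ⟨_, rfl⟩
  obtain ⟨m, hm⟩ : ∃ m : ℕ, m = c.size + 1 - a₀ - a₂ := ⟨_, rfl⟩
  have hsum : a₀ + m + a₂ = c.size + 1 := by omega
  have hmq : m = 0 ∨ m + q 0 + q 2 = c.size + 1 := by omega
  have hmR : ρ * m ≤ (1 + 4 * ε) * g + 2 * C + 8 := by
    rcases hmq with h1 | h1
    · rw [h1, Nat.cast_zero, mul_zero]
      positivity
    · have h2 : (m : ℝ) + q 0 + q 2 = c.size + 1 := by exact_mod_cast h1
      have h3 := hq1 0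
      have h4 := hq1 2
      have h5 : ρ * ((m : ℝ) + q 0 + q 2) = ρ * (c.size + 1) := by rw [h2]
      rw [hν] at h3 h4
      linarith only [h3, h4, h5, hc, hXG, hρ4]
  have ha0' : a₀ ≠ 0 → ρ * a₀ + C + ν ≤ ((G 0).card : ℝ) := by
    intro h
    have h1 := hq2 0 (by omega)
    have h2 : (a₀ : ℝ) ≤ q 0 := by
      have : a₀ ≤ q 0 := by omega
      exact_mod_cast this
    have h3 : ρ * (a₀ : ℝ) ≤ ρ * q 0 := mul_le_mul_of_nonneg_left h2 hρ0.le
    linarith only [h1, h3]
  have ha2' : a₂ ≠ 0 → ρ * a₂ + C + ν ≤ ((G 2).card : ℝ) := by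
    intro h
    have h1 := hq2 2 (by omega)
    have h2 : (a₂ : ℝ) ≤ q 2 := by
      have : a₂ ≤ q 2 := by omega
      exact_mod_cast this
    have h3 : ρ * (a₂ : ℝ) ≤ ρ * q 2 := mul_le_mul_of_nonneg_left h2 hρ0.le
    linarith only [h1, h3]
  obtain ⟨e, F, f1, f2, f3, f4, f5, f6, f7⟩ := exists_labels c a₀ m a₂ hsum
  obtain ⟨S, hS⟩ : ∃ S : ℕ, S = ⌊(1 - β / 16) * (m : ℝ)⌋₊ := ⟨_, rfl⟩
  have hm0 : (0 : ℝ) ≤ m := Nat.cast_nonneg _
  have hS1 : (S : ℝ) ≤ (1 - β / 16) * m := by
    rw [hS]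
    exact Nat.floor_le (mul_nonneg (by linarith only [hβ1]) hm0)
  have hS2 : (1 - β / 16) * (m : ℝ) < S + 1 := by
    rw [hS]
    exact Nat.lt_floor_add_one _
  obtain ⟨r1, r2, r3⟩ := thick_arith hβ hβ1 hρ hρ4 hε hC hm0 hmR hgC hS1
  rw [← hν] at r2 r3
  have hlF : F.un.len ≤ b := by rw [f2]; exact hl
  have hdF : F.un.Deg b := by rw [f2]; exact hd
  -- the count of every label
  have hcnt : ∀ j, F.num j + (if e = j then 1 else 0) = if j = 0 then a₀ else if j = 1 then m else if j = 2 then a₂ else 0 := by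
    intro j
    by_cases h0 : j = 0
    · subst h0
      rw [if_pos rfl, ← f5]
    by_cases h1 : j = 1
    · subst h1
      rw [if_neg h0, if_pos rfl, ← f6]
    by_cases h2 : j = 2
    · subst h2
      rw [if_neg h0, if_neg h1, if_pos rfl, ← f7]
    rw [if_neg h0, if_neg h1, if_neg h2, Fn.num_big f4 (by omega), if_neg (by omega)]
  by_cases hcase : F.Mx 1 S e ∧ (e = 1 → (F.top 1).size + 1 ≤ S)
  · -- all components in the core are not too large
    obtain ⟨hMx, htop⟩ := hcase
    obtain ⟨x, hx, P, hP, hxP, -, hE⟩ := hU (F.top e) ((Fn.len_top e F).trans hlF) (Fn.deg_top e F hdF) (G e) (by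
      have h1 := Fn.size_top e F
      have h2 := hcnt e
      rw [if_pos rfl] at h2
      by_cases h0 : e = 0
      · subst h0
        rw [if_pos rfl] at h2
        have h3 := ha0' (by omega)
        have h4 : ((F.top 0).size : ℝ) + 1 ≤ a₀ := by
          have : (F.top 0).size + 1 ≤ a₀ := by omega
          exact_mod_cast this
        have h5 : ρ * (((F.top 0).size : ℝ) + 1) ≤ ρ * a₀ := mul_le_mul_of_nonneg_left h4 hρ0.le
        linarith only [h3, h5, hν0]
      by_cases h1' : e = 1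
      · subst h1'
        have h4 : ((F.top 1).size : ℝ) + 1 ≤ S := by exact_mod_cast htop rfl
        have h5 : ρ * (((F.top 1).size : ℝ) + 1) ≤ ρ * S := mul_le_mul_of_nonneg_left h4 hρ0.le
        have h6 : (S : ℝ) ≤ m := by
          have : (1 - β / 16) * (m : ℝ) ≤ 1 * m := mul_le_mul_of_nonneg_right (by linarith only [hβ]) hm0
          linarith only [this, hS1]
        rw [← hg]
        linarith only [h5, h6, r2, hν0]
      · obtain rfl : e = 2 := by omega
        rw [if_neg h0, if_neg h1', if_pos rfl] at h2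
        have h3 := ha2' (by omega)
        have h4 : ((F.top 2).size : ℝ) + 1 ≤ a₂ := by
          have : (F.top 2).size + 1 ≤ a₂ := by omega
          exact_mod_cast this
        have h5 : ρ * (((F.top 2).size : ℝ) + 1) ≤ ρ * a₂ := mul_le_mul_of_nonneg_left h4 hρ0.le
        linarith only [h3, h5, hν0])
    have htot := tot hdis hx hP hxP hE
    obtain ⟨Q, q1, q2, q3, -⟩ := extm hρ1 hU hsub hdis htyp (fun j => if j = 1 then S else F.off e j) F e f3 hdF
      (by
        intro j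
        by_cases h1 : j = 1
        · subst h1
          simpa using hMx
        · simp only [if_neg h1]
          exact Fn.mx_off j F e)
      x hx P hP hxP hE (insert x P) (Subset.refl _) (by
        intro j hj
        have h1 := htot j
        rw [hcnt j] at h1
        by_cases h0 : j = 0
        · subst h0
          simp only [if_true, show (0 : ℕ) ≠ 1 by omega, if_false] at h1 ⊢
          have h2 := ha0' (by omega)
          have h3 : (F.off e 0 : ℝ) + ((insert x P ∩ G 0).card : ℝ) = a₀ := by exact_mod_cast h1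
          have h4 : (F.off e 0 : ℝ) ≤ a₀ := by
            have : (0 : ℝ) ≤ ((insert x P ∩ G 0).card : ℝ) := Nat.cast_nonneg _
            linarith only [this, h3]
          have h5 : (ρ - 1) * (F.off e 0 : ℝ) ≤ (ρ - 1) * a₀ := mul_le_mul_of_nonneg_left h4 (by linarith only [hρ1])
          linarith only [h2, h3, h5]
        by_cases h1' : j = 1
        · subst h1'
          simp only [if_true, if_neg h0] at h1 ⊢
          have h3 : (F.off e 1 : ℝ) + ((insert x P ∩ G 1).card : ℝ) = m := by exact_mod_cast h1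
          rw [← hg]
          linarith only [h3, r2]
        by_cases h2' : j = 2
        · subst h2'
          simp only [if_neg h0, if_neg h1', if_true] at h1 ⊢
          have h2 := ha2' (by omega)
          have h3 : (F.off e 2 : ℝ) + ((insert x P ∩ G 2).card : ℝ) = a₂ := by exact_mod_cast h1
          have h4 : (F.off e 2 : ℝ) ≤ a₂ := by
            have : (0 : ℝ) ≤ ((insert x P ∩ G 2).card : ℝ) := Nat.cast_nonneg _
            linarith only [this, h3]
          have h5 : (ρ - 1) * (F.off e 2 : ℝ) ≤ (ρ - 1) * a₂ := mul_le_mul_of_nonneg_left h4 (by linarith only [hρ1])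
          linarith only [h2, h3, h5]
        · exfalso
          rw [if_neg h0, if_neg h1', if_neg h2'] at h1
          omega)
    refine ⟨x, hsub e hx, P ∪ Q, union_subset (hP.trans (hsub e)) q1, ?_, trivial, by rw [← f2]; exact q3⟩
    rw [mem_union, not_or]
    exact ⟨hxP, fun h => disjoint_left.1 q2 h (mem_insert_self _ _)⟩
  · -- a giant component, which contains the root after changing the root
    obtain ⟨H, h1, h2, h3, h4, h5, h6⟩ : ∃ H : Fn, H.Ok 1 ∧ H.un.Deg b ∧ H.un.len ≤ b + 1 ∧ S < (H.top 1).size + 1 ∧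
        (∀ i, H.num i + (if 1 = i then 1 else 0) = F.num i + (if e = i then 1 else 0)) ∧
        ∀ (y : V) (B : Finset V), y ∉ B → Emb R H.un y B →
          ∃ x B', x ∉ B' ∧ insert x B' = insert y B ∧ Emb R c x B' := by
      by_cases hMx : F.Mx 1 S e
      · have h7 : ¬ (e = 1 → (F.top 1).size + 1 ≤ S) := fun h => hcase ⟨hMx, h⟩
        push Not at h7
        obtain ⟨rfl, h8⟩ := h7
        exact ⟨F, f3, hdF, hlF.trans (Nat.le_succ b), h8, fun i => rfl, fun y B hy hE => ⟨y, B, hy, rfl, f2 ▸ hE⟩⟩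
      · obtain ⟨H, h1, h2, h3, h4, h5, h6⟩ := reroot 1 S b F e hMx f3 hdF .nil trivial trivial (by
          show F.un.len + 0 ≤ b + 1
          omega)
        refine ⟨H, h1, h2, h3, h4, fun i => ?_, fun y B hy hE => ?_⟩
        · have := h5 i
          simp only [Fn.num, add_zero] at this
          exact this
        · obtain ⟨x, B', g1, g2, g3⟩ := h6 y B hy hE
          rw [Fn.app_nil, f2] at g3
          exact ⟨x, B', g1, g2, g3⟩
    have hS3 : (S : ℝ) + 1 ≤ (H.top 1).size + 1 := by exact_mod_cast h4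
    have hcntH : ∀ j, H.num j + (if 1 = j then 1 else 0) =
        if j = 0 then a₀ else if j = 1 then m else if j = 2 then a₂ else 0 := fun j => by rw [h5 j, hcnt j]
    have hnum1 := hcntH 1
    simp only [if_true, show (1 : ℕ) ≠ 0 by omega, if_false] at hnum1
    have hsz1 := Fn.size_top 1 H
    have htopm : ((H.top 1).size : ℝ) + 1 ≤ m := by
      have : (H.top 1).size + 1 ≤ m := by omega
      exact_mod_cast this
    obtain ⟨v, hv⟩ : (G 1).Nonempty := by
      rw [← card_pos]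
      have h7 : (0 : ℝ) < ((G 1).card : ℝ) := by rw [← hg]; exact hg0
      exact_mod_cast h7
    obtain ⟨P, hP, hvP, hE⟩ := hn₀ hT (G 1) hgn (by rw [← hg]; exact hEx) v hv (H.top 1) ((Fn.len_top 1 H).trans h3)
      (deg_mono (Nat.le_succ b) (Fn.deg_top 1 H h2)) (by rw [← hg]; linarith only [r1, htopm])
    have htot := tot hdis hv hP hvP hE
    obtain ⟨Q, q1, q2, q3, -⟩ := extm hρ1 hU hsub hdis htyp (fun j => H.off 1 j) H 1 h1 h2 (fun j => Fn.mx_off j H 1)
      v hv P hP hvP hE (insert v P) (Subset.refl _) (by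
        intro j hj
        have h1 := htot j
        rw [hcntH j] at h1
        by_cases h0 : j = 0
        · subst h0
          simp only [if_true] at h1 ⊢
          have h2 := ha0' (by omega)
          have h3 : (H.off 1 0 : ℝ) + ((insert v P ∩ G 0).card : ℝ) = a₀ := by exact_mod_cast h1
          have h4 : (H.off 1 0 : ℝ) ≤ a₀ := by
            have : (0 : ℝ) ≤ ((insert v P ∩ G 0).card : ℝ) := Nat.cast_nonneg _
            linarith only [this, h3]
          have h5 : (ρ - 1) * (H.off 1 0 : ℝ) ≤ (ρ - 1) * a₀ := mul_le_mul_of_nonneg_left h4 (by linarith only [hρ1])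
          linarith only [h2, h3, h5]
        by_cases h1' : j = 1
        · subst h1'
          simp only [if_true, if_neg h0] at h1 ⊢
          have h3 : (H.off 1 1 : ℝ) + ((insert v P ∩ G 1).card : ℝ) = m := by exact_mod_cast h1
          have h7 : (H.off 1 1 : ℝ) ≤ β / 16 * m := by
            have h8 : ((H.top 1).size : ℝ) + 1 + H.off 1 1 = m := by
              have : (H.top 1).size + 1 + H.off 1 1 = m := by omega
              exact_mod_cast this
            linarith only [h8, hS3, hS2]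
          have h5 : (ρ - 1) * (H.off 1 1 : ℝ) ≤ (ρ - 1) * (β / 16 * m) := mul_le_mul_of_nonneg_left h7 (by linarith only [hρ1])
          rw [← hg]
          linarith only [h3, h5, r3]
        by_cases h2' : j = 2
        · subst h2'
          simp only [if_neg h0, if_neg h1', if_true] at h1 ⊢
          have h2 := ha2' (by omega)
          have h3 : (H.off 1 2 : ℝ) + ((insert v P ∩ G 2).card : ℝ) = a₂ := by exact_mod_cast h1
          have h4 : (H.off 1 2 : ℝ) ≤ a₂ := by
            have : (0 : ℝ) ≤ ((insert v P ∩ G 2).card : ℝ) := Nat.cast_nonneg _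
            linarith only [this, h3]
          have h5 : (ρ - 1) * (H.off 1 2 : ℝ) ≤ (ρ - 1) * a₂ := mul_le_mul_of_nonneg_left h4 (by linarith only [hρ1])
          linarith only [h2, h3, h5]
        · exfalso
          rw [if_neg h0, if_neg h1', if_neg h2'] at h1
          omega)
    have hvPQ : v ∉ P ∪ Q := by
      rw [mem_union, not_or]
      exact ⟨hvP, fun h => disjoint_left.1 q2 h (mem_insert_self _ _)⟩
    obtain ⟨x, B', g1, g2, g3⟩ := h6 v (P ∪ Q) hvPQ q3
    have hsubX : insert x B' ⊆ X := by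
      rw [g2]
      exact insert_subset (hsub 1 hv) (union_subset (hP.trans (hsub 1)) q1)
    exact ⟨x, hsubX (mem_insert_self _ _), B', (subset_insert _ _).trans hsubX, g1, trivial, g3⟩

end AEK
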