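import Pool.Agent.AEK.Thin
import Pool.Agent.AEK.Geo
import Pool.Agent.AEK.Thick
import Pool.Agent.AEX.Four

/-!
# The unrooted theorem with ratio `1 + β` for all oriented trees of bounded degree
-/

namespace AEK

open Finset AE15 AED AELT AEX
open scoped Classical

/-- one step: the ratio decreases by a constant -/
theorem step (b : ℕ) (hb : 1 ≤ b) {β : ℝ} (hβ : 0 < β) (hβ1 : β ≤ 1) : ∃ g : ℝ, 0 < g ∧ ∀ ρ C : ℝ, 0 ≤ C → 1 + β ≤ ρ → ρ ≤ 4 →
    (∀ {V : Type} {R : V → V → Prop}, AE32.Tour R → Un R b ρ C) →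
      ∃ C' : ℝ, 0 ≤ C' ∧ ∀ {V : Type} {R : V → V → Prop}, AE32.Tour R → Un R b (ρ - g) C' := by
  obtain ⟨η, γ₁, hη, hη1, hγ₁, hthin⟩ := thin b hb hβ hβ1
  obtain ⟨ε, γ₂, hε, hε1, hγ₂, hthick⟩ := thick b hb hβ hβ1
  obtain ⟨δ, θ, n₀, hδ, hθ, hθ1, hgeo⟩ := geo hη hη1 hε hε1
  obtain ⟨g, hg⟩ : ∃ g : ℝ, g = min β (min γ₁ (γ₂ * δ)) := ⟨_, rfl⟩
  have hg0 : 0 < g := by
    rw [hg]
    exact lt_min hβ (lt_min hγ₁ (by positivity))
  have hgβ : g ≤ β := by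
    rw [hg]
    exact min_le_left _ _
  have hg1 : g ≤ γ₁ := by
    rw [hg]
    exact (min_le_right _ _).trans (min_le_left _ _)
  have hg2 : g ≤ γ₂ * δ := by
    rw [hg]
    exact (min_le_right _ _).trans (min_le_right _ _)
  refine ⟨g, hg0, fun ρ C hC hρ hρ4 hU => ?_⟩
  obtain ⟨n₁, h₁⟩ := hthin C hC
  obtain ⟨n₂, h₂⟩ := hthick δ θ hδ hθ hθ1 C hC
  refine ⟨(n₀ : ℝ) + n₁ + n₂, by positivity, ?_⟩
  intro V R hT c hl hd X hX
  have hc0 : (0 : ℝ) ≤ (c.size : ℝ) + 1 := by positivity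
  have e0 : (0 : ℝ) ≤ n₀ := Nat.cast_nonneg _
  have e1 : (0 : ℝ) ≤ n₁ := Nat.cast_nonneg _
  have e2 : (0 : ℝ) ≤ n₂ := Nat.cast_nonneg _
  have hprod : 1 * ((c.size : ℝ) + 1) ≤ (ρ - g) * ((c.size : ℝ) + 1) := mul_le_mul_of_nonneg_right (by linarith) hc0
  have hn₀ : n₀ ≤ X.card := by
    have : (n₀ : ℝ) ≤ X.card := by linarith
    exact_mod_cast this
  have hn₁ : n₁ ≤ X.card := by
    have : (n₁ : ℝ) ≤ X.card := by linarith
    exact_mod_cast this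
  have hn₂ : n₂ ≤ X.card := by
    have : (n₂ : ℝ) ≤ X.card := by linarith
    exact_mod_cast this
  have hbig : (c.size : ℝ) + 1 ≤ X.card := by linarith
  have hkey : ρ * ((c.size : ℝ) + 1) ≤ X.card + g * X.card := by
    have h1 : g * ((c.size : ℝ) + 1) ≤ g * X.card := mul_le_mul_of_nonneg_left hbig hg0.le
    have h2 : ρ * ((c.size : ℝ) + 1) = (ρ - g) * ((c.size : ℝ) + 1) + g * ((c.size : ℝ) + 1) := by ring
    linarith
  rcases hgeo hT X hn₀ with h | ⟨G, h⟩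
  · refine h₁ hT ρ hρ hρ4 (hU hT) X hn₁ h c hl hd (hkey.trans ?_)
    have : g * (X.card : ℝ) ≤ γ₁ * X.card := mul_le_mul_of_nonneg_right hg1 (Nat.cast_nonneg _)
    linarith
  · refine h₂ hT ρ hρ hρ4 (hU hT) X G hn₂ h c hl hd (hkey.trans ?_)
    have h5 : g * (X.card : ℝ) ≤ γ₂ * δ * X.card := mul_le_mul_of_nonneg_right hg2 (Nat.cast_nonneg _)
    have h6 : γ₂ * (δ * X.card) ≤ γ₂ * (G 1).card := mul_le_mul_of_nonneg_left h.2.1 hγ₂.le
    linarith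

theorem un_mono {V : Type*} {R : V → V → Prop} {b : ℕ} {ρ ρ' C : ℝ} (h : Un R b ρ C) (hρ : ρ ≤ ρ') : Un R b ρ' C := by
  intro c h1 h2 X hX
  refine h c h1 h2 X (le_trans ?_ hX)
  have : (0 : ℝ) ≤ (c.size : ℝ) + 1 := by positivity
  have := mul_le_mul_of_nonneg_right hρ this
  linarith

/-- **The unrooted theorem with ratio `1 + β`** -/
theorem un_one (b : ℕ) (hb : 1 ≤ b) {β : ℝ} (hβ : 0 < β) : ∃ C : ℝ, 0 ≤ C ∧ ∀ {V : Type} {R : V → V → Prop},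
    AE32.Tour R → Un R b (1 + β) C := by
  obtain ⟨β', hβ'⟩ : ∃ β' : ℝ, β' = min β 1 := ⟨_, rfl⟩
  have h0 : 0 < β' := by rw [hβ']; exact lt_min hβ one_pos
  have h1 : β' ≤ 1 := by rw [hβ']; exact min_le_right _ _
  have h2 : β' ≤ β := by rw [hβ']; exact min_le_left _ _
  obtain ⟨g, hg, hstep⟩ := step b hb h0 h1
  have key : ∀ k : ℕ, ∃ C : ℝ, 0 ≤ C ∧ ∀ {V : Type} {R : V → V → Prop}, AE32.Tour R →
      Un R b (max (4 - k * g) (1 + β')) C := by
    intro k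
    induction k with
    | zero =>
      refine ⟨0, le_rfl, fun hT => un_mono (un_four hT b) ?_⟩
      simp
    | succ k ih =>
      obtain ⟨C, hC, hU⟩ := ih
      have hk : (0 : ℝ) ≤ k * g := by positivity
      obtain ⟨C', hC', hU'⟩ := hstep (max (4 - k * g) (1 + β')) C hC (le_max_right _ _)
        (max_le (by linarith) (by linarith)) hU
      refine ⟨C', hC', fun hT => un_mono (hU' hT) ?_⟩
      have h3 : max (4 - (k : ℝ) * g) (1 + β') - g ≤ max (4 - ((k + 1 : ℕ) : ℝ) * g) (1 + β') := by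
        rw [sub_le_iff_le_add]
        apply max_le
        · have := le_max_left (4 - ((k + 1 : ℕ) : ℝ) * g) (1 + β')
          push_cast at this ⊢
          linarith
        · have := le_max_right (4 - ((k + 1 : ℕ) : ℝ) * g) (1 + β')
          linarith
      exact h3
  obtain ⟨k, hk⟩ := exists_nat_ge (3 / g)
  obtain ⟨C, hC, hU⟩ := key k
  refine ⟨C, hC, fun hT => un_mono (hU hT) ?_⟩
  rw [div_le_iff₀ hg] at hk
  exact max_le (by linarith) (by linarith)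

end AEK
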