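import Pool.Agent.AEK.Stmt

/-!
# Almost transitive tournaments
-/

namespace AEK

open Finset AE15 AED AELT AEX
open scoped Classical

/-- mirror image of a forest -/
def mrr : Fd → Fd
  | .nil => .nil
  | .node d c s => .node (!d) (mrr c) (mrr s)

theorem mrr_mrr (c : Fd) : mrr (mrr c) = c := by
  induction c with
  | nil => rfl
  | node d c s ihc ihs => simp [mrr, ihc, ihs]

theorem mrr_len (c : Fd) : (mrr c).len = c.len := by
  induction c with
  | nil => rfl
  | node d c s ihc ihs => simp [mrr, Fd.len, ihs]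

theorem mrr_size (c : Fd) : (mrr c).size = c.size := by
  induction c with
  | nil => rfl
  | node d c s ihc ihs => simp [mrr, Fd.size, ihc, ihs]

theorem mrr_deg {b : ℕ} {c : Fd} (h : c.Deg b) : (mrr c).Deg b := by
  induction c with
  | nil => trivial
  | node d c s ihc ihs => exact ⟨by rw [mrr_len]; exact h.1, ihc h.2.1, ihs h.2.2⟩

section
variable {V : Type*} {R : V → V → Prop}

/-- reversed arcs -/
def rev (R : V → V → Prop) : V → V → Prop := fun a b => R b a

theorem adj_rev {d : Bool} {x y : V} : Adj (rev R) (!d) x y ↔ Adj R d x y := by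
  cases d <;> simp [Adj, rev]

theorem emb_mrr {c : Fd} {x : V} {A : Finset V} (h : Emb R c x A) : Emb (rev R) (mrr c) x A := by
  induction c generalizing x A with
  | nil => exact h
  | node d c s ihc ihs =>
    obtain ⟨y, A', B', h1, h2, h3, h4, h5, h6, h7⟩ := h
    exact ⟨y, A', B', adj_rev.2 h1, h2, h3, h4, h5, ihc h6, ihs h7⟩

theorem tour_rev (h : AE32.Tour R) : AE32.Tour (rev R) :=
  ⟨fun a => h.irr a, fun a b hab => (h.tot a b hab).symm, fun a b h1 h2 => h.asym b a h1 h2⟩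

theorem un_rev {b : ℕ} {ρ C : ℝ} (h : Un R b ρ C) : Un (rev R) b ρ C := by
  intro c h1 h2 X hX
  obtain ⟨x, hx, A, hA, hxA, -, hE⟩ := h (mrr c) (by rw [mrr_len]; exact h1) (mrr_deg h2) X (by rw [mrr_size]; exact hX)
  have := emb_mrr hE
  rw [mrr_mrr] at this
  exact ⟨x, hx, A, hA, hxA, trivial, this⟩

theorem grp_rev {X : Finset V} {ν : ℝ} (hν : 0 ≤ ν) {G : ℕ → Finset V} (h : Grp R X ν G) :
    Grp (rev R) X ν (fun j => if j ≤ 2 then G (2 - j) else ∅) := by
  refine ⟨?_, ?_, ?_, ?_⟩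
  · intro j
    split_ifs
    exacts [h.sub _, empty_subset _]
  · intro i j hij
    split_ifs
    · exact h.dis _ _ (by omega)
    all_goals simp
  · intro j hj
    rw [if_neg (by omega)]
  · intro i j hij
    simp only
    by_cases hj : j ≤ 2
    · rw [if_pos hj, if_pos (by omega)]
      have h1 := h.typ (2 - j) (2 - i) (by omega)
      exact ⟨h1.2, h1.1⟩
    · rw [if_neg hj]
      exact ⟨fun x _ => by simpa using hν, fun x hx => by simp at hx⟩

theorem div_rev {X : Finset V} {η : ℝ} (hη : 0 ≤ η) (h : Div R X η) : Div (rev R) X η := by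
  intro a₀ a₁ a₂ h0 h1 h2 hs
  obtain ⟨G, hG, g0, g1, g2⟩ := h a₂ a₁ a₀ h2 h1 h0 (by linarith)
  refine ⟨_, grp_rev (by positivity) hG, ?_, ?_, ?_⟩
  · simpa using g2
  · simpa using g1
  · simpa using g0

theorem thin_core {b : ℕ} {ρ C ν : ℝ} (hρ : 1 ≤ ρ) (hU : Un R b ρ C) (hT : AE32.Tour R) {X : Finset V}
    {G : ℕ → Finset V} (hG : Grp R X ν G) {g c : Fd} (hgl : g.len ≤ b) (hgD : g.Deg b) (hcD : c.Deg b)
    (t : ℕ) (ht : c.size ≤ 2 * t + 1) (hcg : c.size ≤ g.size + 1)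
    (h0 : ((g.size : ℝ) + 1) + (pl t c).num 0 + (ρ - 1) * (g.size + 1) + C + ν ≤ (G 0).card)
    (h1 : ((pl t c).num 1 : ℝ) + 1 ≤ (G 1).card) (h2 : ((pl t c).num 2 : ℝ) + (ρ - 1) * t + C + ν ≤ (G 2).card) :
    ∃ y ∈ X, ∃ B ⊆ X, y ∉ B ∧ Emb R (.node false g c) y B := by
  obtain ⟨F, hF⟩ : ∃ F : Fn, F = .node false 0 (cst 0 g) (pl t c) := ⟨_, rfl⟩
  have hFu : F.un = .node false g c := by rw [hF]; simp [Fn.un, cst_un, pl_un]
  have hFt : F.top 1 = (pl t c).top 1 := by
    rw [hF]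
    simp [Fn.top]
  have hP := pl_path t c ht
  obtain ⟨x, hx, P, hPG, hxP, hE⟩ := redei hT hP (X := G 1) (by
    rw [pl_top]
    exact_mod_cast h1)
  have hoff : ∀ j, F.off 1 j = (if 0 = j then 1 + g.size else 0) + (if j = 1 then 0 else (pl t c).num j) := by
    intro j
    rw [hF]
    simp only [Fn.off, if_neg (show ¬ (0 : ℕ) = 1 by omega), cst_num]
    have h3 : (pl t c).off 1 j = if j = 1 then 0 else (pl t c).num j := by
      split_ifs with h4
      · subst h4
        have h5 := Fn.size_top 1 (pl t c)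
        rw [pl_top] at h5
        omega
      · exact Fn.off_ne h4 _
    rw [h3]
    split_ifs <;> omega
  obtain ⟨M, hM⟩ : ∃ M : ℕ → ℕ, M = fun j => if j = 0 then g.size + 1 else if j = 2 then t else 0 := ⟨_, rfl⟩
  have hmx : ∀ j, F.Mx j (M j) 1 := by
    intro j
    rw [hF, hM]
    refine ⟨fun _ h => ?_, cst_mx _ _ _ _, ?_⟩
    · rw [cst_top]
      simp only
      rw [if_pos h.symm]
    · by_cases hj0 : j = 0
      · subst hj0
        exact pl_mx0 t _ c (by simpa using hcg)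
      · by_cases hj2 : j = 2
        · subst hj2
          exact pl_mx2 t c
        · exact pl_mx t j _ hj0 hj2 c
  have hW : ∀ j, j ≠ 1 → (insert x P ∩ G j).card = 0 := by
    intro j hj
    rw [card_eq_zero, ← disjoint_iff_inter_eq_empty]
    refine (hG.dis 1 j (Ne.symm hj)).mono_left ?_
    rw [insert_subset_iff]
    exact ⟨hx, hPG⟩
  obtain ⟨Q, hQX, hQW, hQE, -⟩ := extm hρ hU hG.sub hG.dis hG.typ M F 1 (by
    rw [hF]
    exact ⟨by simp, cst_ok 0 g, pl_ok t c⟩) (by rw [hFu]; exact ⟨hgl, hgD, hcD⟩) hmx x hx P hPG hxP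
    (by rw [hFt]; exact hE) (insert x P) (Subset.refl _) (by
      intro j hj
      rw [hoff] at hj ⊢
      by_cases hj0 : j = 0
      · subst hj0
        rw [hW 0 (by omega), hM]
        simp only [if_true, if_neg (show ¬ (0 : ℕ) = 1 by omega)]
        push_cast
        linarith
      · by_cases hj1 : j = 1
        · subst hj1
          simp at hj
        · by_cases hj2 : j = 2
          · subst hj2
            rw [hW 2 (by omega), hM]
            simp only [if_true, if_neg (show ¬ (0 : ℕ) = 2 by omega), if_neg (show ¬ (2 : ℕ) = 1 by omega),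
              if_neg (show ¬ (2 : ℕ) = 0 by omega)]
            push_cast
            linarith
          · rw [if_neg (Ne.symm hj0), if_neg hj1, pl_num_ge t j (by omega)] at hj
            exact absurd rfl hj)
  rw [disjoint_insert_right] at hQW
  refine ⟨x, hG.sub 1 hx, P ∪ Q, union_subset (hPG.trans (hG.sub 1)) hQX, ?_, by rwa [hFu] at hQE⟩
  rw [mem_union, not_or]
  exact ⟨hxP, hQW.1⟩

end

theorem thin (b : ℕ) (hb : 1 ≤ b) {β : ℝ} (hβ : 0 < β) (hβ1 : β ≤ 1) : ∃ η γ : ℝ, 0 < η ∧ η ≤ 1 ∧ 0 < γ ∧ ∀ C : ℝ, 0 ≤ C →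
    ∃ n₁ : ℕ, ∀ {V : Type} {R : V → V → Prop}, AE32.Tour R → ∀ ρ : ℝ, 1 + β ≤ ρ → ρ ≤ 4 → Un R b ρ C →
      ∀ X : Finset V, n₁ ≤ X.card → Div R X η → ∀ c : Fd, c.len ≤ b → c.Deg b →
        ρ * (c.size + 1) ≤ X.card + γ * X.card → In R c (fun _ => True) X := by
  have hb' : (1 : ℝ) ≤ b := by exact_mod_cast hb
  obtain ⟨η, hη⟩ : ∃ η : ℝ, η = β / (512 * b) := ⟨_, rfl⟩
  have hη0 : 0 < η := by rw [hη]; positivity
  have hη1 : η ≤ 1 := by
    rw [hη, div_le_one (by positivity)]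
    linarith
  have hηb : 512 * b * η = β := by
    rw [hη]
    field_simp
  refine ⟨η, η, hη0, hη1, hη0, fun C hC => ?_⟩
  obtain ⟨n₁, hn₁⟩ := exists_nat_ge (max 64 (max (2 * C) (256 * b * C / β)))
  refine ⟨n₁, ?_⟩
  intro V R hT ρ hρ hρ4 hU X hX hD c hl hd hc
  have hXn : (max 64 (max (2 * C) (256 * b * C / β)) : ℝ) ≤ X.card := hn₁.trans (by exact_mod_cast hX)
  rw [max_le_iff, max_le_iff] at hXn
  obtain ⟨hX1, hX2, hX3⟩ := hXn
  rw [div_le_iff₀ hβ] at hX3
  obtain ⟨n, hn⟩ : ∃ n : ℝ, n = X.card := ⟨_, rfl⟩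
  rw [← hn] at hX1 hX2 hX3 hc
  by_cases hsmall : (8 : ℝ) * (c.size + 1) ≤ n
  · refine hU c hl hd X ?_
    rw [← hn]
    have h1 : (0 : ℝ) ≤ c.size + 1 := by positivity
    nlinarith
  push Not at hsmall
  have hcs : (64 : ℝ) < 8 * (c.size + 1) := lt_of_le_of_lt hX1 hsmall
  have hcs' : 8 ≤ c.size := by
    have : (7 : ℝ) < c.size := by linarith
    exact_mod_cast this
  obtain ⟨m, hm⟩ : ∃ m, m = (c.size - 2) / (2 * b) := ⟨_, rfl⟩
  have hm1 : 2 * b * m ≤ c.size - 2 := by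
    rw [hm]
    exact Nat.mul_div_le _ _
  have hm2 : c.size - 2 < 2 * b * (m + 1) := by
    rw [hm]
    exact Nat.lt_mul_div_succ _ (by omega)
  have hm3 : 2 * (b * m) ≤ c.size - 2 := by rw [← mul_assoc]; exact hm1
  have hp : ∃ p ∈ c.trees, m < p.2.size + 1 := by
    by_contra hcon
    push Not at hcon
    have h1 := tsz_le_of_small m c hcon
    have h2 := Nat.mul_le_mul_right m hl
    omega
  obtain ⟨d, c₁, g, a1, a2, a3, a4, a5, a6, a7, a8⟩ := branch_root b m c hd hp .nil trivial (by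
    simp only [Fd.len]
    omega)
  simp only [Fd.size, add_zero] at a3
  obtain ⟨t, ht⟩ : ∃ t, t = c₁.size / 2 := ⟨_, rfl⟩
  have ht1 : c₁.size ≤ 2 * t + 1 := by omega
  have ht2 : 2 * t ≤ c₁.size := by omega
  have hcg : c₁.size ≤ g.size + 1 := by omega
  -- the gain
  have hgain : β * n / (64 * b) ≤ (ρ - 1) * ((c₁.size : ℝ) + 1 - t) := by
    have e1 : (c.size : ℝ) - 2 < 2 * b * (m + 1) := by
      have : ((c.size - 2 : ℕ) : ℝ) < ((2 * b * (m + 1) : ℕ) : ℝ) := by exact_mod_cast hm2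
      rw [Nat.cast_sub (by omega)] at this
      push_cast at this
      linarith
    have e2 : (m : ℝ) + 1 ≤ c₁.size + 1 := by exact_mod_cast a1
    have e3 : 2 * (t : ℝ) ≤ c₁.size := by exact_mod_cast ht2
    have e4 : ((m : ℝ) + 1) / 2 ≤ (c₁.size : ℝ) + 1 - t := by linarith
    have e5 : n / 16 ≤ (c.size : ℝ) - 2 := by linarith
    have e6 : n / (64 * b) ≤ (c₁.size : ℝ) + 1 - t := by
      refine le_trans ?_ e4
      rw [div_le_iff₀ (by positivity)]
      nlinarith
    have e7 : β * (n / (64 * b)) ≤ (ρ - 1) * ((c₁.size : ℝ) + 1 - t) :=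
      mul_le_mul (by linarith) e6 (by positivity) (by linarith)
    calc β * n / (64 * b) = β * (n / (64 * b)) := by ring
      _ ≤ _ := e7
  have hroom : ∀ c₂ : Fd, c₂.size = c₁.size →
      (((g.size : ℝ) + 1) + (pl t c₂).num 0 + (ρ - 1) * (g.size + 1) + C + η * n) + (((pl t c₂).num 1 : ℝ) + 1) +
        (((pl t c₂).num 2 : ℝ) + (ρ - 1) * t + C + η * n) + η * n ≤ n := by
    intro c₂ hc₂
    have e1 : ((pl t c₂).num 0 : ℝ) + (pl t c₂).num 1 + (pl t c₂).num 2 = c₁.size := by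
      rw [← hc₂]
      exact_mod_cast pl_sum t c₂
    have e2 : (c₁.size : ℝ) + g.size + 1 = c.size := by exact_mod_cast a3
    have e3 : 2 * C ≤ β * n / (128 * b) := by
      rw [le_div_iff₀ (by positivity)]
      nlinarith
    have e4 : 4 * η * n = β * n / (128 * b) := by
      rw [← hηb]
      field_simp
      norm_num
    have e5 : β * n / (64 * b) = β * n / (128 * b) + β * n / (128 * b) := by
      field_simp
      norm_num
    have e6 : ρ * ((c.size : ℝ) + 1) = (g.size + 1) + (c₁.size + 1) + (ρ - 1) * (g.size + 1) + (ρ - 1) * t +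
        (ρ - 1) * ((c₁.size : ℝ) + 1 - t) := by
      rw [← e2]
      ring
    nlinarith
  have hηn : 0 ≤ η * n := by rw [hn]; positivity
  have hρ1 : 0 ≤ ρ - 1 := by linarith
  have fin : ∃ y ∈ X, ∃ B ⊆ X, y ∉ B ∧ Emb R (.node (!d) g c₁) y B := by
    cases d with
    | true =>
      obtain ⟨G, hG, g0, g1, g2⟩ := hD
        (((g.size : ℝ) + 1) + (pl t c₁).num 0 + (ρ - 1) * (g.size + 1) + C + η * X.card) (((pl t c₁).num 1 : ℝ) + 1)
        (((pl t c₁).num 2 : ℝ) + (ρ - 1) * t + C + η * X.card) (by positivity) (by positivity) (by positivity) (by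
        have := hroom c₁ rfl
        rw [hn] at this
        exact this)
      exact thin_core (by linarith) hU hT hG a6 a7 a5 t ht1 hcg g0 g1 g2
    | false =>
      obtain ⟨G, hG, g0, g1, g2⟩ := div_rev hη0.le hD
        (((g.size : ℝ) + 1) + (pl t (mrr c₁)).num 0 + (ρ - 1) * (g.size + 1) + C + η * X.card)
        (((pl t (mrr c₁)).num 1 : ℝ) + 1)
        (((pl t (mrr c₁)).num 2 : ℝ) + (ρ - 1) * t + C + η * X.card) (by positivity) (by positivity) (by positivity) (by
        have := hroom (mrr c₁) (mrr_size c₁)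
        rw [hn] at this
        exact this)
      obtain ⟨y, hy, B, hB, hyB, hE⟩ := thin_core (g := mrr g) (c := mrr c₁) (by linarith) (un_rev hU) (tour_rev hT) hG
        (by rw [mrr_len]; exact a6) (mrr_deg a7) (mrr_deg a5) t (by rw [mrr_size]; exact ht1)
        (by rw [mrr_size, mrr_size]; exact hcg) (by rw [mrr_size]; exact g0) g1 g2
      have h1 := emb_mrr hE
      simp only [mrr, mrr_mrr] at h1
      exact ⟨y, hy, B, hB, hyB, h1⟩
  obtain ⟨y, hy, B, hB, hyB, hE⟩ := fin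
  obtain ⟨x, B', b1, b2, b3⟩ := a8 y B hyB hE
  have b4 : Emb R c x B' := by
    refine emb_perm ?_ b3
    rw [fapp_trees]
    simp [Fd.trees]
  have b5 : insert x B' ⊆ X := by
    rw [b2, insert_subset_iff]
    exact ⟨hy, hB⟩
  rw [insert_subset_iff] at b5
  exact ⟨x, b5.1, B', b5.2, b1, trivial, b4⟩

end AEK
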