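import Pool.Agent.AELT.Ext
import Pool.Agent.AEX.Branch

/-!
# The unrooted theorem with ratio `1 + β` for all oriented trees of bounded degree: definitions
-/

namespace AEK

open Finset AE15 AED AELT
open scoped Classical

/-- ordered forests (as `Fd`) with a natural number as a label at every vertex -/
inductive Fn : Type
  | nil : Fn
  | node (d : Bool) (e : ℕ) (c s : Fn) : Fn

/-- forget the labels -/
def Fn.un : Fn → Fd
  | .nil => .nil
  | .node d _ c s => .node d c.un s.un

/-- labels do not decrease along arcs; the forest hangs on a vertex with label `p` -/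
def Fn.Ok : ℕ → Fn → Prop
  | _, .nil => True
  | p, .node d e c s => (if d then p ≤ e else e ≤ p) ∧ Fn.Ok e c ∧ Fn.Ok p s

/-- the component of the common vertex (label `e`) inside its label -/
def Fn.top (e : ℕ) : Fn → Fd
  | .nil => .nil
  | .node d e' c s => if e' = e then .node d (Fn.top e c) (Fn.top e s) else Fn.top e s

/-- number of vertices with label `j` -/
def Fn.num (j : ℕ) : Fn → ℕ
  | .nil => 0
  | .node _ e c s => (if e = j then 1 else 0) + Fn.num j c + Fn.num j s

/-- number of vertices with label `j` outside the component of the common vertex (label `e`) -/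
def Fn.off (e j : ℕ) : Fn → ℕ
  | .nil => 0
  | .node _ e' c s => (if e' = e then Fn.off e j c else (if e' = j then 1 else 0) + Fn.num j c) + Fn.off e j s

/-- every component with label `j` outside the component of the common vertex (label `e`) has at most `M` vertices -/
def Fn.Mx (j M : ℕ) : ℕ → Fn → Prop
  | _, .nil => True
  | e, .node _ e' c s => (e' ≠ e → e' = j → (Fn.top e' c).size + 1 ≤ M) ∧ Fn.Mx j M e' c ∧ Fn.Mx j M e s

/-- all labels are at most `2` -/
def Fn.Le2 : Fn → Prop
  | .nil => True
  | .node _ e c s => e ≤ 2 ∧ c.Le2 ∧ s.Le2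

/-- two forests at the same vertex -/
def Fn.app : Fn → Fn → Fn
  | .nil, G => G
  | .node d e c s, G => .node d e c (s.app G)

variable {V : Type*} {R : V → V → Prop}

/-- every vertex of `G i` sees all but `ν` vertices of `G j` in the right direction (`i ≠ j`) -/
def Typ (R : V → V → Prop) (ν : ℝ) (G : ℕ → Finset V) : Prop := ∀ i j, i < j →
  (∀ x ∈ G i, (((G j).filter (fun v => ¬ R x v)).card : ℝ) ≤ ν) ∧
    ∀ x ∈ G j, (((G i).filter (fun v => ¬ R v x)).card : ℝ) ≤ ν

end AEK
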