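import Pool.Agent.AEK.Defs

/-!
# Monotone labellings with prescribed numbers of labels
-/

namespace AEK

open Finset AE15 AED AELT AEX
open scoped Classical

/-- ordered forests with real labels -/
inductive Fr : Type
  | nil : Fr
  | node (d : Bool) (t : ℝ) (c s : Fr) : Fr

/-- forget the labels -/
def Fr.un : Fr → Fd
  | .nil => .nil
  | .node d _ c s => .node d c.un s.un

/-- labels do not decrease along arcs -/
def Fr.Ok : ℝ → Fr → Prop
  | _, .nil => True
  | p, .node d t c s => (if d then p ≤ t else t ≤ p) ∧ Fr.Ok t c ∧ Fr.Ok p s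

/-- the labels -/
noncomputable def Fr.labs : Fr → Finset ℝ
  | .nil => ∅
  | .node _ t c s => insert t (c.labs ∪ s.labs)

/-- all labels are different -/
def Fr.Inj : Fr → Prop
  | .nil => True
  | .node _ t c s => t ∉ c.labs ∧ t ∉ s.labs ∧ Disjoint c.labs s.labs ∧ c.Inj ∧ s.Inj

/-- change the labels -/
def Fr.map (f : ℝ → ℕ) : Fr → Fn
  | .nil => .nil
  | .node d t c s => .node d (f t) (c.map f) (s.map f)

theorem exists_side (d : Bool) (p : ℝ) (A : Finset ℝ) : ∃ t, t ∉ A ∧ (if d then p ≤ t else t ≤ p) := by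
  cases d with
  | true =>
    obtain ⟨t, ht, htA⟩ := (Set.Ioi_infinite p).exists_notMem_finset A
    exact ⟨t, htA, by simpa using (Set.mem_Ioi.1 ht).le⟩
  | false =>
    obtain ⟨t, ht, htA⟩ := (Set.Iio_infinite p).exists_notMem_finset A
    exact ⟨t, htA, by simpa using (Set.mem_Iio.1 ht).le⟩

theorem exists_real (c : Fd) : ∀ (p : ℝ) (A : Finset ℝ), ∃ F : Fr, F.un = c ∧ F.Ok p ∧ F.Inj ∧ Disjoint F.labs A ∧
    F.labs.card = c.size := by
  induction c with
  | nil => exact fun p A => ⟨.nil, rfl, trivial, trivial, by simp [Fr.labs], rfl⟩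
  | node d c s ihc ihs =>
    intro p A
    obtain ⟨t, htA, ht⟩ := exists_side d p A
    obtain ⟨F₁, a1, a2, a3, a4, a5⟩ := ihc t (insert t A)
    obtain ⟨F₂, b1, b2, b3, b4, b5⟩ := ihs p (insert t A ∪ F₁.labs)
    rw [disjoint_insert_right] at a4
    rw [disjoint_union_right, disjoint_insert_right] at b4
    refine ⟨.node d t F₁ F₂, by simp [Fr.un, a1, b1], ⟨ht, a2, b2⟩, ⟨a4.1, b4.1.1, b4.2.symm, a3, b3⟩, ?_, ?_⟩
    · simp only [Fr.labs]
      rw [disjoint_insert_left, disjoint_union_left]
      exact ⟨htA, a4.2, b4.1.2⟩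
    · simp only [Fr.labs, Fd.size]
      rw [card_insert_of_notMem (by simp [a4.1, b4.1.1]), card_union_of_disjoint b4.2.symm, a5, b5]

theorem map_un (f : ℝ → ℕ) (F : Fr) : (F.map f).un = F.un := by
  induction F with
  | nil => rfl
  | node d t c s ihc ihs => simp [Fr.map, Fr.un, Fn.un, ihc, ihs]

theorem map_ok {f : ℝ → ℕ} (hf : Monotone f) (F : Fr) : ∀ p, F.Ok p → (F.map f).Ok (f p) := by
  induction F with
  | nil => exact fun _ _ => trivial
  | node d t c s ihc ihs =>
    rintro p ⟨h1, h2, h3⟩
    refine ⟨?_, ihc t h2, ihs p h3⟩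
    cases d
    · simp only [Bool.false_eq_true, if_false] at h1 ⊢
      exact hf h1
    · simp only [if_true] at h1 ⊢
      exact hf h1

theorem map_num (f : ℝ → ℕ) (j : ℕ) (F : Fr) (h : F.Inj) :
    (F.map f).num j = (F.labs.filter (fun x => f x = j)).card := by
  induction F with
  | nil => rfl
  | node d t c s ihc ihs =>
    obtain ⟨h1, h2, h3, h4, h5⟩ := h
    simp only [Fr.map, Fn.num, Fr.labs, ihc h4, ihs h5]
    rw [filter_insert, filter_union]
    split_ifs with h6
    · rw [card_insert_of_notMem (by simp [h1, h2]), card_union_of_disjoint (disjoint_filter_filter h3)]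
      omega
    · rw [card_union_of_disjoint (disjoint_filter_filter h3)]
      omega

theorem map_le2 {f : ℝ → ℕ} (hf : ∀ x, f x ≤ 2) (F : Fr) : (F.map f).Le2 := by
  induction F with
  | nil => trivial
  | node d t c s ihc ihs => exact ⟨hf t, ihc, ihs⟩

/-- the rank in a finite set -/
noncomputable def rk (S : Finset ℝ) (x : ℝ) : ℕ := (S.filter (fun y => y < x)).card

theorem rk_mono (S : Finset ℝ) : Monotone (rk S) := fun _ _ h =>
  card_le_card (fun _ hz => by
    rw [mem_filter] at hz ⊢
    exact ⟨hz.1, hz.2.trans_le h⟩)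

theorem rk_lt (S : Finset ℝ) {x y : ℝ} (hx : x ∈ S) (h : x < y) : rk S x < rk S y := by
  refine card_lt_card ⟨fun z hz => ?_, fun hsub => ?_⟩
  · rw [mem_filter] at hz ⊢
    exact ⟨hz.1, hz.2.trans h⟩
  · have := hsub (mem_filter.2 ⟨hx, h⟩)
    rw [mem_filter] at this
    exact lt_irrefl _ this.2

theorem rk_inj (S : Finset ℝ) : Set.InjOn (rk S) S := by
  intro x hx y hy h
  rcases lt_trichotomy x y with h1 | h1 | h1
  · exact absurd h (rk_lt S hx h1).ne
  · exact h1
  · exact absurd h (rk_lt S hy h1).ne'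

theorem rk_image (S : Finset ℝ) : S.image (rk S) = range S.card := by
  apply eq_of_subset_of_card_le
  · intro i hi
    obtain ⟨x, hx, rfl⟩ := mem_image.1 hi
    rw [mem_range]
    exact card_lt_card ⟨filter_subset _ _, fun h => by
      have := h hx
      rw [mem_filter] at this
      exact lt_irrefl _ this.2⟩
  · rw [card_image_of_injOn (rk_inj S), card_range]

/-- number of elements with a property of the rank -/
theorem rk_count (S : Finset ℝ) (P : ℕ → Prop) :
    (S.filter (fun x => P (rk S x))).card = ((range S.card).filter P).card := by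
  rw [← rk_image S, filter_image, card_image_of_injOn]
  exact (rk_inj S).mono (fun x hx => by
    rw [mem_coe, mem_filter] at hx
    exact hx.1)

/-- **Three labels with prescribed numbers** -/
theorem exists_labels (c : Fd) (n₀ m n₂ : ℕ) (h : n₀ + m + n₂ = c.size + 1) : ∃ (e : ℕ) (F : Fn), e ≤ 2 ∧ F.un = c ∧
    F.Ok e ∧ F.Le2 ∧ F.num 0 + (if e = 0 then 1 else 0) = n₀ ∧ F.num 1 + (if e = 1 then 1 else 0) = m ∧
      F.num 2 + (if e = 2 then 1 else 0) = n₂ := by
  obtain ⟨F, a1, a2, a3, a4, a5⟩ := exists_real c 0 {0}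
  rw [disjoint_singleton_right] at a4
  obtain ⟨S, hS⟩ : ∃ S, S = insert (0 : ℝ) F.labs := ⟨_, rfl⟩
  have hSc : S.card = c.size + 1 := by rw [hS, card_insert_of_notMem a4, a5]
  obtain ⟨g, hg⟩ : ∃ g : ℕ → ℕ, g = fun i => if i < n₀ then 0 else if i < n₀ + m then 1 else 2 := ⟨_, rfl⟩
  have hgm : Monotone g := by
    intro i j hij
    rw [hg]
    simp only
    split_ifs <;> omega
  have hg2 : ∀ i, g i ≤ 2 := by
    intro i
    rw [hg]
    simp only
    split_ifs <;> omega
  have hcount : ∀ j, (F.map (fun x => g (rk S x))).num j + (if g (rk S 0) = j then 1 else 0) =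
      ((range S.card).filter (fun i => g i = j)).card := by
    intro j
    rw [map_num _ _ _ a3]
    have h1 := rk_count S (fun i => g i = j)
    have h2 : (S.filter (fun x => g (rk S x) = j)).card =
        (F.labs.filter (fun x => g (rk S x) = j)).card + (if g (rk S 0) = j then 1 else 0) := by
      have h3 : S.filter (fun x => g (rk S x) = j) = (insert (0 : ℝ) F.labs).filter (fun x => g (rk S x) = j) := by
        rw [← hS]
      rw [h3, filter_insert]
      split_ifs with h4
      · rw [card_insert_of_notMem (by simp [a4])]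
      · rfl
    rw [← h2]
    convert h1
  refine ⟨g (rk S 0), F.map (fun x => g (rk S x)), hg2 _, by rw [map_un, a1], map_ok (hgm.comp (rk_mono S)) F 0 a2,
    map_le2 (fun x => hg2 _) F, ?_, ?_, ?_⟩
  · rw [hcount, hSc, ← h]
    have : (range (n₀ + m + n₂)).filter (fun i => g i = 0) = range n₀ := by
      ext i
      rw [mem_filter, mem_range, mem_range, hg]
      simp only
      split_ifs <;> simp <;> omega
    rw [this, card_range]
  · rw [hcount, hSc, ← h]
    have : (range (n₀ + m + n₂)).filter (fun i => g i = 1) = Ico n₀ (n₀ + m) := by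
      ext i
      rw [mem_filter, mem_range, mem_Ico, hg]
      simp only
      split_ifs <;> simp <;> omega
    rw [this, Nat.card_Ico]
    omega
  · rw [hcount, hSc, ← h]
    have : (range (n₀ + m + n₂)).filter (fun i => g i = 2) = Ico (n₀ + m) (n₀ + m + n₂) := by
      ext i
      rw [mem_filter, mem_range, mem_Ico, hg]
      simp only
      split_ifs <;> simp <;> omega
    rw [this, Nat.card_Ico]
    omega

end AEK
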