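import Pool.Agent.AEK.Extm
import Pool.Agent.AEK.Reroot

/-!
# The labelling with a directed path as the middle part
-/

namespace AEK

open Finset AE15 AED AELT AEX
open scoped Classical

/-- constant labels -/
def cst (j : ℕ) : Fd → Fn
  | .nil => .nil
  | .node d c s => .node d j (cst j c) (cst j s)

/-- label `1`: the out-branches with more than `t` vertices, recursively; label `0`: the in-branches; label `2`: the other
out-branches -/
def pl (t : ℕ) : Fd → Fn
  | .nil => .nil
  | .node d c s => if d = false then .node d 0 (cst 0 c) (pl t s) else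
      if t < c.size + 1 then .node d 1 (pl t c) (pl t s) else .node d 2 (cst 2 c) (pl t s)

/-- directed paths starting at the common vertex -/
def IsP : Fd → Prop
  | .nil => True
  | .node d c s => d = true ∧ s = .nil ∧ IsP c

theorem cst_un (j : ℕ) (c : Fd) : (cst j c).un = c := by
  induction c with
  | nil => rfl
  | node d c s ihc ihs => simp [cst, Fn.un, ihc, ihs]

theorem cst_ok (j : ℕ) (c : Fd) : (cst j c).Ok j := by
  induction c with
  | nil => trivial
  | node d c s ihc ihs => exact ⟨by simp, ihc, ihs⟩

theorem cst_top (j : ℕ) (c : Fd) : (cst j c).top j = c := by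
  induction c with
  | nil => rfl
  | node d c s ihc ihs => simp [cst, Fn.top, ihc, ihs]

theorem cst_num (j i : ℕ) (c : Fd) : (cst j c).num i = if j = i then c.size else 0 := by
  induction c with
  | nil => simp [cst, Fn.num, Fd.size]
  | node d c s ihc ihs =>
    simp only [cst, Fn.num, ihc, ihs, Fd.size]
    split_ifs <;> omega

theorem cst_mx (j i M : ℕ) (c : Fd) : (cst j c).Mx i M j := by
  induction c with
  | nil => trivial
  | node d c s ihc ihs => exact ⟨fun h => absurd rfl h, ihc, ihs⟩

theorem pl_un (t : ℕ) (c : Fd) : (pl t c).un = c := by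
  induction c with
  | nil => rfl
  | node d c s ihc ihs =>
    simp only [pl]
    split_ifs <;> simp [Fn.un, ihc, ihs, cst_un]

theorem pl_ok (t : ℕ) (c : Fd) : (pl t c).Ok 1 := by
  induction c with
  | nil => trivial
  | node d c s ihc ihs =>
    simp only [pl]
    split_ifs with h1 h2
    · exact ⟨by rw [h1]; simp, cst_ok 0 c, ihs⟩
    · exact ⟨by simp, ihc, ihs⟩
    · refine ⟨?_, cst_ok 2 c, ihs⟩
      rw [Bool.not_eq_false] at h1
      rw [h1]
      simp

theorem pl_sum (t : ℕ) (c : Fd) : (pl t c).num 0 + (pl t c).num 1 + (pl t c).num 2 = c.size := by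
  induction c with
  | nil => rfl
  | node d c s ihc ihs =>
    simp only [pl]
    split_ifs with h1 h2
    · simp only [Fn.num, cst_num, Fd.size]
      simp
      omega
    · simp only [Fn.num, Fd.size]
      simp
      omega
    · simp only [Fn.num, cst_num, Fd.size]
      simp
      omega

theorem pl_top (t : ℕ) (c : Fd) : ((pl t c).top 1).size = (pl t c).num 1 := by
  induction c with
  | nil => rfl
  | node d c s ihc ihs =>
    simp only [pl]
    split_ifs with h1 h2
    · simp [Fn.top, Fn.num, cst_num, ihs]
    · simp only [Fn.top, Fn.num, if_true, Fd.size, ihc, ihs]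
      omega
    · simp [Fn.top, Fn.num, cst_num, ihs]

theorem pl_mx0 (t M : ℕ) (c : Fd) : c.size ≤ M → (pl t c).Mx 0 M 1 := by
  induction c with
  | nil => exact fun _ => trivial
  | node d c s ihc ihs =>
    intro h
    simp only [Fd.size] at h
    simp only [pl]
    split_ifs with h1 h2
    · refine ⟨fun _ _ => ?_, cst_mx _ _ _ _, ihs (by omega)⟩
      rw [cst_top]
      omega
    · exact ⟨fun h => absurd rfl h, ihc (by omega), ihs (by omega)⟩
    · exact ⟨fun _ h => absurd h (by omega), cst_mx _ _ _ _, ihs (by omega)⟩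

theorem pl_mx2 (t : ℕ) (c : Fd) : (pl t c).Mx 2 t 1 := by
  induction c with
  | nil => trivial
  | node d c s ihc ihs =>
    simp only [pl]
    split_ifs with h1 h2
    · exact ⟨fun _ h => absurd h (by omega), cst_mx _ _ _ _, ihs⟩
    · exact ⟨fun h => absurd rfl h, ihc, ihs⟩
    · refine ⟨fun _ _ => ?_, cst_mx _ _ _ _, ihs⟩
      rw [cst_top]
      omega

theorem pl_mx (t j M : ℕ) (hj0 : j ≠ 0) (hj2 : j ≠ 2) (c : Fd) : (pl t c).Mx j M 1 := by
  induction c with
  | nil => trivial
  | node d c s ihc ihs =>
    simp only [pl]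
    split_ifs with h1 h2
    · exact ⟨fun _ h => absurd h.symm hj0, cst_mx _ _ _ _, ihs⟩
    · exact ⟨fun h => absurd rfl h, ihc, ihs⟩
    · exact ⟨fun _ h => absurd h.symm hj2, cst_mx _ _ _ _, ihs⟩

theorem pl_num_ge (t j : ℕ) (hj : 3 ≤ j) (c : Fd) : (pl t c).num j = 0 := by
  induction c with
  | nil => rfl
  | node d c s ihc ihs =>
    simp only [pl]
    split_ifs with h1 h2 <;> simp only [Fn.num, cst_num, ihs, ihc] <;> simp <;> omega

theorem pl_top_nil (t : ℕ) (c : Fd) : c.size ≤ t → (pl t c).top 1 = .nil := by
  induction c with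
  | nil => exact fun _ => rfl
  | node d c s ihc ihs =>
    intro h
    simp only [Fd.size] at h
    simp only [pl]
    split_ifs with h1 h2
    · simp only [Fn.top, if_neg (show ¬ (0 : ℕ) = 1 by omega)]
      exact ihs (by omega)
    · omega
    · simp only [Fn.top, if_neg (show ¬ (2 : ℕ) = 1 by omega)]
      exact ihs (by omega)

theorem pl_path (t : ℕ) (c : Fd) : c.size ≤ 2 * t + 1 → IsP ((pl t c).top 1) := by
  induction c with
  | nil => exact fun _ => trivial
  | node d c s ihc ihs =>
    intro h
    simp only [Fd.size] at h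
    simp only [pl]
    split_ifs with h1 h2
    · simp only [Fn.top, if_neg (show ¬ (0 : ℕ) = 1 by omega)]
      exact ihs (by omega)
    · simp only [Fn.top, if_true]
      exact ⟨by rwa [Bool.not_eq_false] at h1, pl_top_nil t s (by omega), ihc (by omega)⟩
    · simp only [Fn.top, if_neg (show ¬ (2 : ℕ) = 1 by omega)]
      exact ihs (by omega)

section redei
variable {V : Type*} {R : V → V → Prop}

theorem ins_chain (hT : AE32.Tour R) (a : V) (l : List V) : l.IsChain R → a ∉ l → ∃ l' : List V, l'.Perm (a :: l) ∧
    l'.IsChain R ∧ ∀ x ∈ l'.head?, x = a ∨ x ∈ l.head? := by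
  induction l with
  | nil => exact fun _ _ => ⟨[a], List.Perm.refl _, by simp, by simp⟩
  | cons b l ih =>
    intro h ha
    by_cases hab : R a b
    · exact ⟨a :: b :: l, List.Perm.refl _, List.isChain_cons_cons.2 ⟨hab, h⟩, by simp⟩
    · have hba : R b a := by
        have hne : a ≠ b := fun h => ha (by simp [h])
        rcases hT.tot a b hne with h1 | h1
        exacts [absurd h1 hab, h1]
      obtain ⟨l', h1, h2, h3⟩ := ih h.tail (fun h => ha (by simp [h]))
      refine ⟨b :: l', (h1.cons b).trans (List.Perm.swap a b l), ?_, by simp⟩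
      rw [List.isChain_cons]
      refine ⟨fun y hy => ?_, h2⟩
      rcases h3 y hy with rfl | h4
      · exact hba
      · exact (List.isChain_cons.1 h).1 y h4

theorem ham (hT : AE32.Tour R) (X : Finset V) : ∃ l : List V, l.Nodup ∧ l.toFinset = X ∧ l.IsChain R := by
  induction X using Finset.induction_on with
  | empty => exact ⟨[], by simp, by simp, by simp⟩
  | insert a X ha ih =>
    obtain ⟨l, h1, h2, h3⟩ := ih
    have hal : a ∉ l := fun h => ha (by rw [← h2]; simpa using h)
    obtain ⟨l', h4, h5, -⟩ := ins_chain hT a l h3 hal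
    refine ⟨l', h4.nodup_iff.2 (List.nodup_cons.2 ⟨hal, h1⟩), ?_, h5⟩
    rw [List.toFinset_eq_of_perm _ _ h4, List.toFinset_cons, h2]

theorem emb_of_chain (c : Fd) : IsP c → ∀ (a : V) (l : List V), (a :: l).IsChain R → (a :: l).Nodup →
    c.size = l.length → Emb R c a l.toFinset := by
  induction c with
  | nil =>
    intro _ a l _ _ h
    have : l = [] := List.length_eq_zero_iff.1 h.symm
    subst this
    rfl
  | node d c s ihc ihs =>
    rintro ⟨rfl, rfl, hP⟩ a l hl hn h
    simp only [Fd.size] at h
    cases l with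
    | nil => simp at h
    | cons x l =>
      rw [List.isChain_cons_cons] at hl
      rw [List.length_cons] at h
      have hn' : (x :: l).Nodup := (List.nodup_cons.1 hn).2
      have h1 := ihc hP x l hl.2 hn' (by omega)
      refine ⟨x, l.toFinset, ∅, hl.1, ?_, by simp, by simp, ?_, h1, rfl⟩
      · simpa using (List.nodup_cons.1 hn').1
      · rw [List.toFinset_cons, union_empty]

/-- **Rédei**: a directed path with the right number of vertices -/
theorem redei (hT : AE32.Tour R) {c : Fd} (hc : IsP c) {X : Finset V} (hX : c.size + 1 ≤ X.card) :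
    ∃ x ∈ X, ∃ A ⊆ X, x ∉ A ∧ Emb R c x A := by
  obtain ⟨Y, hYX, hY⟩ := exists_subset_card_eq hX
  obtain ⟨l, h1, h2, h3⟩ := ham hT Y
  have hlen : l.length = c.size + 1 := by rw [← List.toFinset_card_of_nodup h1, h2, hY]
  cases l with
  | nil => simp at hlen
  | cons a l =>
    rw [List.length_cons] at hlen
    have h4 := emb_of_chain c hc a l h3 h1 (by omega)
    have h5 : insert a l.toFinset ⊆ X := by
      rw [← List.toFinset_cons, h2]
      exact hYX
    rw [insert_subset_iff] at h5
    exact ⟨a, h5.1, l.toFinset, h5.2, by simpa using (List.nodup_cons.1 h1).1, h4⟩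

end redei

end AEK
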