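import Pool.Agent.AEK.PathL
import Pool.Agent.AEK.Lab3

/-!
# The two kinds of tournaments
-/

namespace AEK

open Finset AE15 AED AELT
open scoped Classical

variable {V : Type*} {R : V → V → Prop}

/-- disjoint sets `G 0`, `G 1`, `G 2` in `X` such that every vertex sees all but `ν` vertices of the other sets in the right
direction (`G 0` above `G 1` above `G 2`) -/
structure Grp (R : V → V → Prop) (X : Finset V) (ν : ℝ) (G : ℕ → Finset V) : Prop where
  sub : ∀ j, G j ⊆ X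
  dis : ∀ i j, i ≠ j → Disjoint (G i) (G j)
  emp : ∀ j, 3 ≤ j → G j = ∅
  typ : Typ R ν G

/-- `X` is almost transitive: it contains groups of any given sizes -/
def Div (R : V → V → Prop) (X : Finset V) (η : ℝ) : Prop := ∀ a₀ a₁ a₂ : ℝ, 0 ≤ a₀ → 0 ≤ a₁ → 0 ≤ a₂ →
  a₀ + a₁ + a₂ + η * X.card ≤ X.card → ∃ G : ℕ → Finset V, Grp R X (η * X.card) G ∧ a₀ ≤ (G 0).card ∧
    a₁ ≤ (G 1).card ∧ a₂ ≤ (G 2).card

/-- `X` has a large expanding block `G 1` -/
def Thk (R : V → V → Prop) (X : Finset V) (δ ε θ : ℝ) (G : ℕ → Finset V) : Prop :=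
  Grp R X (ε * (G 1).card) G ∧ δ * X.card ≤ (G 1).card ∧ Ex R (θ * (G 1).card) (G 1) ∧
    (X.card : ℝ) ≤ (G 0).card + (G 1).card + (G 2).card + ε * (G 1).card

end AEK
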